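import Mathlib

/-!
Linear algebra and one-variable preliminaries for the rank argument on analytic sets.
-/

namespace Pool.Agent.Hhelper87.Crit

open Module Filter Topology

section complete

variable {W : Type*} [AddCommGroup W] [Module ℂ W] [FiniteDimensional ℂ W]

lemma exists_complete {ι : Type*} [Fintype ι] (v : ι → W) (hv : LinearIndependent ℂ v) :
    ∃ (r : ℕ) (lam : Fin r → W), LinearIndependent ℂ (Sum.elim v lam) ∧
      Fintype.card ι + r = finrank ℂ W := by
  obtain ⟨C, hC⟩ := Submodule.exists_isCompl (Submodule.span ℂ (Set.range v))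
  refine ⟨finrank ℂ C, fun i => (finBasis ℂ C i : W), ?_, ?_⟩
  · apply LinearIndependent.sum_type hv
    · have := (finBasis ℂ C).linearIndependent
      exact this.map' C.subtype (Submodule.ker_subtype C)
    · have : Submodule.span ℂ (Set.range (fun i => ((finBasis ℂ C i : C) : W))) ≤ C := by
        rw [Submodule.span_le]
        rintro x ⟨i, rfl⟩
        exact (finBasis ℂ C i).2
      exact hC.disjoint.mono_right this
  · rw [← finrank_span_eq_card hv]
    exact Submodule.finrank_add_eq_of_isCompl hC

end complete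

section dual

variable {V : Type*} [NormedAddCommGroup V] [NormedSpace ℂ V] [FiniteDimensional ℂ V]

lemma finrank_clm : finrank ℂ (V →L[ℂ] ℂ) = finrank ℂ V := by
  rw [← (LinearMap.toContinuousLinearMap (𝕜 := ℂ) (E := V) (F' := ℂ)).finrank_eq]
  exact Subspace.dual_finrank_eq

lemma exists_equiv_of_indep {ι : Type*} [Fintype ι] (φ : ι → V →L[ℂ] ℂ)
    (h : LinearIndependent ℂ φ) (hc : Fintype.card ι = finrank ℂ V) :
    ∃ e : V ≃L[ℂ] (ι → ℂ), ∀ x i, e x i = φ i x := by
  have hspan : Submodule.span ℂ (Set.range φ) = ⊤ := by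
    apply Submodule.eq_top_of_finrank_eq
    rw [finrank_span_eq_card h, hc, finrank_clm]
  let f : V →ₗ[ℂ] (ι → ℂ) := LinearMap.pi (fun i => (φ i : V →ₗ[ℂ] ℂ))
  have hinj : Function.Injective f := by
    rw [← LinearMap.ker_eq_bot, LinearMap.ker_eq_bot']
    intro x hx
    have h1 : ∀ ψ : V →L[ℂ] ℂ, ψ x = 0 := by
      intro ψ
      have hψ : ψ ∈ Submodule.span ℂ (Set.range φ) := by rw [hspan]; trivial
      induction hψ using Submodule.span_induction with
      | mem y hy =>
        obtain ⟨i, rfl⟩ := hy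
        exact congrFun hx i
      | zero => simp
      | add a b _ _ ha hb => simp [ha, hb]
      | smul c a _ ha => simp [ha]
    by_contra hne
    obtain ⟨g, hg⟩ := SeparatingDual.exists_ne_zero (R := ℂ) hne
    exact hg (h1 g)
  have hcard : finrank ℂ V = finrank ℂ (ι → ℂ) := by
    rw [finrank_fintype_fun_eq_card, hc]
  let e := LinearEquiv.ofInjectiveOfFinrankEq f hinj hcard
  refine ⟨e.toContinuousLinearEquiv, fun x i => ?_⟩
  rfl

end dual

section matrix

variable {ι : Type*} [Fintype ι] [DecidableEq ι]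

/-- Cramer type identity -/
lemma det_mul_dotProduct (A : Matrix ι ι ℂ) (η ζ : ι → ℂ) :
    A.det * (η ⬝ᵥ ζ) = ∑ c, (A.mulVec ζ) c * (A.updateRow c η).det := by
  have h1 : ∀ c, (A.updateRow c η).det = (Matrix.vecMul η A.adjugate) c := by
    intro c
    rw [← Matrix.cramer_transpose_apply, Matrix.cramer_eq_adjugate_mulVec,
      ← Matrix.adjugate_transpose, Matrix.mulVec_transpose]
  have h2 : ∑ c, (A.mulVec ζ) c * (A.updateRow c η).det =
      (Matrix.vecMul η A.adjugate) ⬝ᵥ (A.mulVec ζ) := by
    simp only [dotProduct]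
    apply Finset.sum_congr rfl
    intro c _
    rw [h1 c, mul_comm]
  rw [h2, ← Matrix.dotProduct_mulVec, Matrix.mulVec_mulVec, Matrix.adjugate_mul]
  simp [Matrix.smul_mulVec, dotProduct_smul]

/-- if a subfamily of the rows is linearly dependent the determinant vanishes -/
lemma det_eq_zero_of_sub {κ : Type*} (A : Matrix ι ι ℂ) (f : κ → ι) (hf : Function.Injective f)
    (h : ¬ LinearIndependent ℂ (fun k => A (f k))) : A.det = 0 := by
  by_contra hdet
  apply h
  have h1 : LinearIndependent ℂ A.row :=
    Matrix.linearIndependent_rows_iff_isUnit.mpr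
      ((Matrix.isUnit_iff_isUnit_det A).mpr (isUnit_iff_ne_zero.mpr hdet))
  exact h1.comp f hf

lemma analyticOnNhd_det {V : Type*} [NormedAddCommGroup V] [NormedSpace ℂ V] {D : Set V}
    (A : V → Matrix ι ι ℂ) (hA : ∀ i j, AnalyticOnNhd ℂ (fun x => A x i j) D) :
    AnalyticOnNhd ℂ (fun x => (A x).det) D := by
  have : (fun x => (A x).det) = fun x => ∑ σ : Equiv.Perm ι,
      ((Equiv.Perm.sign σ : ℤ) : ℂ) * ∏ i, A x (σ i) i := by
    funext x
    rw [Matrix.det_apply]
    apply Finset.sum_congr rfl
    intro σ _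
    simp [Units.smul_def]
  rw [this]
  apply Finset.analyticOnNhd_fun_sum
  intro σ _
  apply AnalyticOnNhd.mul analyticOnNhd_const
  apply Finset.analyticOnNhd_fun_prod
  intro i _
  exact hA _ _

end matrix

section onevar

/-- an analytic function all of whose derivatives vanish at `0` vanishes near `0` -/
lemma eventually_zero_of_iteratedDeriv {f : ℂ → ℂ} (hf : AnalyticAt ℂ f 0)
    (h : ∀ n, iteratedDeriv n f 0 = 0) : f =ᶠ[𝓝 0] 0 := by
  have h1 := hf.hasFPowerSeriesAt
  have h2 : (FormalMultilinearSeries.ofScalars ℂ fun n => iteratedDeriv n f 0 / (n.factorial : ℂ)) =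
      (0 : FormalMultilinearSeries ℂ ℂ ℂ) := by
    ext n
    simp [FormalMultilinearSeries.ofScalars, h n]
  rw [h2] at h1
  exact h1.eventually_eq_zero

/-- a class of germs of analytic functions at `0`, vanishing at `0` and stable under
differentiation, consists of germs of the zero function -/
lemma eventually_zero_of_class (M : (ℂ → ℂ) → Prop) (h0 : ∀ f, M f → AnalyticAt ℂ f 0 ∧ f 0 = 0)
    (hd : ∀ f, M f → M (deriv f)) (f : ℂ → ℂ) (hf : M f) : f =ᶠ[𝓝 0] 0 := by
  apply eventually_zero_of_iteratedDeriv (h0 f hf).1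
  intro n
  have : M (iteratedDeriv n f) := by
    induction n with
    | zero => rw [iteratedDeriv_zero]; exact hf
    | succ n ih => rw [iteratedDeriv_succ]; exact hd _ ih
  exact (h0 _ this).2

end onevar

end Pool.Agent.Hhelper87.Crit
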