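import Mathlib
import Pool.Agent.Hhelper87.Crit.LinAlg

/-!
The generic point lemma: for a set `S` in an open subset `D` of a finite dimensional complex vector
space and an analytic map `u` on `D`, there is a point `a` of `S` near which `S` lies in a complex
submanifold `M` such that every analytic function on `D` vanishing on `S` vanishes on `M`, and `u`
has constant rank on `M`.
-/

namespace Pool.Agent.Hhelper87.Crit

open Module Filter Topology Set

set_option linter.unusedSectionVars false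

variable {V F : Type*} [NormedAddCommGroup V] [NormedSpace ℂ V] [FiniteDimensional ℂ V]
  [NormedAddCommGroup F] [NormedSpace ℂ F] [FiniteDimensional ℂ F]

/-- the functions analytic on `D` and vanishing on `S` -/
def Van (D S : Set V) : Set (V → ℂ) := {h | AnalyticOnNhd ℂ h D ∧ ∀ x ∈ S, h x = 0}

lemma exists_last (P : ℕ → Prop) (N : ℕ) (h0 : P 0) (hN : ∀ n, P n → n ≤ N) :
    ∃ n, P n ∧ ¬ P (n + 1) := by
  by_contra hcon
  push Not at hcon
  have : ∀ n, P n := by
    intro n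
    induction n with
    | zero => exact h0
    | succ n ih => exact hcon n ih
  have := hN _ (this (N + 1))
  omega

/-- the family of covectors -/
noncomputable def fam (u : V → F) {s q : ℕ} (g : Fin s → V → ℂ) (ℓ : Fin q → F →L[ℂ] ℂ) (x : V) :
    Fin s ⊕ Fin q → V →L[ℂ] ℂ :=
  Sum.elim (fun i => fderiv ℂ (g i) x) (fun j => (ℓ j).comp (fderiv ℂ u x))

lemma exists_max (D S : Set V) (hS : S.Nonempty) (u : V → F) :
    ∃ (s q : ℕ) (a : V) (g : Fin s → V → ℂ) (ℓ : Fin q → F →L[ℂ] ℂ), a ∈ S ∧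
      (∀ i, g i ∈ Van D S) ∧ LinearIndependent ℂ (fam u g ℓ a) ∧
      (∀ x ∈ S, ∀ g' : Fin (s + 1) → V → ℂ, (∀ i, g' i ∈ Van D S) →
        ¬ LinearIndependent ℂ (fun i => fderiv ℂ (g' i) x)) ∧
      (∀ x ∈ S, ∀ g' : Fin s → V → ℂ, (∀ i, g' i ∈ Van D S) →
        ∀ ℓ' : Fin (q + 1) → F →L[ℂ] ℂ, ¬ LinearIndependent ℂ (fam u g' ℓ' x)) := by
  obtain ⟨s, ⟨a1, ha1, g1, hg1, hli1⟩, hs⟩ := exists_last
    (fun s => ∃ a ∈ S, ∃ g : Fin s → V → ℂ, (∀ i, g i ∈ Van D S) ∧
      LinearIndependent ℂ (fun i => fderiv ℂ (g i) a)) (finrank ℂ (V →L[ℂ] ℂ))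
    (by
      obtain ⟨a, ha⟩ := hS
      exact ⟨a, ha, fun i => i.elim0, fun i => i.elim0, linearIndependent_empty_type⟩)
    (by
      rintro n ⟨a, _, g, _, hli⟩
      simpa using hli.fintype_card_le_finrank)
  obtain ⟨q, ⟨a, ha, g, hg, ℓ, hli⟩, hq⟩ := exists_last
    (fun q => ∃ a ∈ S, ∃ g : Fin s → V → ℂ, (∀ i, g i ∈ Van D S) ∧
      ∃ ℓ : Fin q → F →L[ℂ] ℂ, LinearIndependent ℂ (fam u g ℓ a)) (finrank ℂ (V →L[ℂ] ℂ))
    (by
      refine ⟨a1, ha1, g1, hg1, fun i => i.elim0, ?_⟩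
      have h1 : fam u g1 (fun i : Fin 0 => i.elim0) a1 =
          (fun i => fderiv ℂ (g1 i) a1) ∘ (Equiv.sumEmpty (Fin s) (Fin 0)) := by
        funext i
        rcases i with i | i
        · rfl
        · exact i.elim0
      rw [h1]
      exact hli1.comp _ (Equiv.injective _))
    (by
      rintro n ⟨a, _, g, _, ℓ, hli⟩
      have := hli.fintype_card_le_finrank
      simp only [Fintype.card_sum, Fintype.card_fin] at this
      omega)
  refine ⟨s, q, a, g, ℓ, ha, hg, hli, ?_, ?_⟩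
  · intro x hx g' hg' h
    exact hs ⟨x, hx, g', hg', h⟩
  · intro x hx g' hg' ℓ' h
    exact hq ⟨x, hx, g', hg', ℓ', h⟩

/-! ### functions along a curve -/

/-- the class of germs generated by the functions vanishing on `S` along a curve -/
inductive MM (D S : Set V) (ρ : ℂ → V) : (ℂ → ℂ) → Prop
  | base (c : ℂ → ℂ) (h : V → ℂ) (hc : AnalyticAt ℂ c 0) (hh : h ∈ Van D S) :
      MM D S ρ (fun t => c t * h (ρ t))
  | zero : MM D S ρ (fun _ => 0)
  | add (f g : ℂ → ℂ) (hf : MM D S ρ f) (hg : MM D S ρ g) : MM D S ρ (fun t => f t + g t)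
  | congr (f g : ℂ → ℂ) (hfg : f =ᶠ[𝓝 0] g) (hf : MM D S ρ f) : MM D S ρ g

lemma MM.sum {D S : Set V} {ρ : ℂ → V} {κ : Type*} (T : Finset κ) (f : κ → ℂ → ℂ)
    (hf : ∀ i, MM D S ρ (f i)) : MM D S ρ (fun t => ∑ i ∈ T, f i t) := by
  classical
  induction T using Finset.induction_on with
  | empty => simpa using MM.zero
  | insert a T ha ih =>
    have : (fun t => ∑ i ∈ insert a T, f i t) = fun t => f a t + ∑ i ∈ T, f i t := by
      funext t
      rw [Finset.sum_insert ha]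
    rw [this]
    exact MM.add _ _ (hf a) ih

lemma MM.analytic {D S : Set V} {ρ : ℂ → V} (hρ : AnalyticAt ℂ ρ 0) (hρS : ρ 0 ∈ S) (hSD : S ⊆ D)
    {f : ℂ → ℂ} (hf : MM D S ρ f) : AnalyticAt ℂ f 0 ∧ f 0 = 0 := by
  induction hf with
  | base c h hc hh =>
    refine ⟨hc.mul ((hh.1 _ (hSD hρS)).fun_comp hρ), ?_⟩
    simp [hh.2 _ hρS]
  | zero => exact ⟨analyticAt_const, rfl⟩
  | add f g _ _ ihf ihg =>
    refine ⟨ihf.1.add ihg.1, ?_⟩
    simp [ihf.2, ihg.2]
  | congr f g hfg _ ih =>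
    refine ⟨ih.1.congr hfg, ?_⟩
    rw [← hfg.eq_of_nhds]
    exact ih.2

lemma MM.mul {D S : Set V} {ρ : ℂ → V} {f : ℂ → ℂ} (hf : MM D S ρ f) {c : ℂ → ℂ}
    (hc : AnalyticAt ℂ c 0) : MM D S ρ (fun t => c t * f t) := by
  induction hf with
  | base c' h hc' hh =>
    have : (fun t => c t * (c' t * h (ρ t))) = fun t => (c t * c' t) * h (ρ t) := by
      funext t; ring
    rw [this]
    exact MM.base _ _ (hc.mul hc') hh
  | zero =>
    have : (fun t => c t * (0 : ℂ)) = fun _ => 0 := by funext t; ring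
    rw [this]
    exact MM.zero
  | add f g _ _ ihf ihg =>
    have : (fun t => c t * (f t + g t)) = fun t => c t * f t + c t * g t := by
      funext t; ring
    rw [this]
    exact MM.add _ _ ihf ihg
  | congr f g hfg _ ih =>
    refine MM.congr _ _ ?_ ih
    filter_upwards [hfg] with t ht
    rw [ht]

lemma MM.deriv {D S : Set V} {ρ : ℂ → V} (hρ : AnalyticAt ℂ ρ 0) (hρS : ρ 0 ∈ S) (hSD : S ⊆ D)
    (hder : ∀ h ∈ Van D S, MM D S ρ (_root_.deriv (fun t => h (ρ t))))
    {f : ℂ → ℂ} (hf : MM D S ρ f) : MM D S ρ (_root_.deriv f) := by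
  induction hf with
  | base c h hc hh =>
    have h1 : AnalyticAt ℂ (fun t => h (ρ t)) 0 := (hh.1 _ (hSD hρS)).fun_comp hρ
    have h2 : (fun t => _root_.deriv c t * h (ρ t) + c t * _root_.deriv (fun t => h (ρ t)) t) =ᶠ[𝓝 0]
        _root_.deriv (fun t => c t * h (ρ t)) := by
      filter_upwards [hc.eventually_analyticAt, h1.eventually_analyticAt] with t ht1 ht2
      exact (deriv_fun_mul ht1.differentiableAt ht2.differentiableAt).symm
    refine MM.congr _ _ h2 (MM.add _ _ (MM.base _ _ hc.deriv hh) ?_)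
    exact (hder h hh).mul hc
  | zero =>
    have : _root_.deriv (fun _ : ℂ => (0 : ℂ)) = fun _ => 0 := by funext t; simp
    rw [this]
    exact MM.zero
  | add f g hf hg ihf ihg =>
    have h1 := (hf.analytic hρ hρS hSD).1
    have h2 := (hg.analytic hρ hρS hSD).1
    refine MM.congr _ _ ?_ (MM.add _ _ ihf ihg)
    filter_upwards [h1.eventually_analyticAt, h2.eventually_analyticAt] with t ht1 ht2
    exact (deriv_fun_add ht1.differentiableAt ht2.differentiableAt).symm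
  | congr f g hfg _ ih => exact MM.congr _ _ hfg.deriv ih

lemma curve_lemma {D S : Set V} (hSD : S ⊆ D) {ρ : ℂ → V} (hρ : AnalyticAt ℂ ρ 0) (hρS : ρ 0 ∈ S)
    {κ : Type*} [Fintype κ] (α : κ → ℂ → ℂ) (hα : ∀ c, AnalyticAt ℂ (α c) 0)
    (op : κ → (V → ℂ) → (V → ℂ)) (hop : ∀ c, ∀ h ∈ Van D S, op c h ∈ Van D S)
    (hder : ∀ h ∈ Van D S, deriv (fun t => h (ρ t)) =ᶠ[𝓝 0]
      fun t => ∑ c, α c t * op c h (ρ t)) {h : V → ℂ} (hh : h ∈ Van D S) :
    (fun t => h (ρ t)) =ᶠ[𝓝 0] 0 := by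
  have hder' : ∀ h ∈ Van D S, MM D S ρ (deriv (fun t => h (ρ t))) := by
    intro h hh
    refine MM.congr _ _ (hder h hh).symm ?_
    exact MM.sum Finset.univ (fun c t => α c t * op c h (ρ t))
      (fun c => MM.base _ _ (hα c) (hop c h hh))
  apply eventually_zero_of_class (MM D S ρ) (fun f hf => hf.analytic hρ hρS hSD)
    (fun f hf => hf.deriv hρ hρS hSD hder')
  have := MM.base (D := D) (S := S) (ρ := ρ) (fun _ => 1) h analyticAt_const hh
  simpa using this

end Pool.Agent.Hhelper87.Crit
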