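import Mathlib
import Pool.Agent.Hhelper87.Crit.Generic

/-!
The generic point lemma.
-/

namespace Pool.Agent.Hhelper87.Crit

open Module Filter Topology Set

set_option linter.unusedSectionVars false

variable {V F : Type*} [NormedAddCommGroup V] [NormedSpace ℂ V] [FiniteDimensional ℂ V]
  [NormedAddCommGroup F] [NormedSpace ℂ F] [FiniteDimensional ℂ F]

section rows

variable {ι : Type*} [Fintype ι] [DecidableEq ι] (e : V ≃L[ℂ] (ι → ℂ))

/-- the coordinates of a covector -/
noncomputable def toRow : (V →L[ℂ] ℂ) →ₗ[ℂ] (ι → ℂ) where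
  toFun φ := fun j => φ (e.symm (Pi.single j 1))
  map_add' φ ψ := by funext j; simp
  map_smul' c φ := by funext j; simp

lemma toRow_apply (φ : V →L[ℂ] ℂ) (j : ι) : toRow e φ j = φ (e.symm (Pi.single j 1)) := rfl

lemma toRow_dot (φ : V →L[ℂ] ℂ) (m : ι → ℂ) : toRow e φ ⬝ᵥ m = φ (e.symm m) := by
  have : m = ∑ j, m j • (Pi.single j (1 : ℂ) : ι → ℂ) := by
    funext i
    simp [Finset.sum_apply, Pi.single_apply]
  conv_rhs => rw [this]
  rw [map_sum, map_sum]
  simp only [dotProduct, toRow_apply, map_smul, smul_eq_mul]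
  apply Finset.sum_congr rfl
  intro j _
  ring

lemma analyticOnNhd_toRow {D : Set V} {h : V → ℂ} (hh : AnalyticOnNhd ℂ h D) (j : ι) :
    AnalyticOnNhd ℂ (fun x => toRow e (fderiv ℂ h x) j) D := by
  intro x hx
  have h1 : AnalyticAt ℂ (fderiv ℂ h) x := hh.fderiv x hx
  have h2 := (ContinuousLinearMap.apply ℂ ℂ (e.symm (Pi.single j (1 : ℂ)))).analyticAt (fderiv ℂ h x)
  exact h2.fun_comp h1

lemma fderiv_clm_comp {D : Set V} {u : V → F} (hu : AnalyticOnNhd ℂ u D) (ℓ : F →L[ℂ] ℂ) {x : V}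
    (hx : x ∈ D) : fderiv ℂ (fun y => ℓ (u y)) x = ℓ.comp (fderiv ℂ u x) := by
  have h1 : HasFDerivAt u (fderiv ℂ u x) x := (hu x hx).differentiableAt.hasFDerivAt
  exact (ℓ.hasFDerivAt.comp x h1).fderiv

lemma analyticOnNhd_clm_comp {D : Set V} {u : V → F} (hu : AnalyticOnNhd ℂ u D) (ℓ : F →L[ℂ] ℂ) :
    AnalyticOnNhd ℂ (fun y => ℓ (u y)) D := by
  intro x hx
  exact (ℓ.analyticAt (u x)).fun_comp (hu x hx)

end rows

section emb

variable {s q r : ℕ}

/-- the embedding of the last two blocks of coordinates -/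
def emb (s q r : ℕ) : (Fin q → ℂ) × (Fin r → ℂ) →ₗ[ℂ] ((Fin s ⊕ Fin q) ⊕ Fin r → ℂ) where
  toFun p := Sum.elim (Sum.elim 0 p.1) p.2
  map_add' p p' := by
    funext i
    rcases i with (i | i) | i <;> simp
  map_smul' c p := by
    funext i
    rcases i with (i | i) | i <;> simp

@[simp] lemma emb_inl_inl (p : (Fin q → ℂ) × (Fin r → ℂ)) (i : Fin s) :
    emb s q r p (Sum.inl (Sum.inl i)) = 0 := rfl
@[simp] lemma emb_inl_inr (p : (Fin q → ℂ) × (Fin r → ℂ)) (i : Fin q) :
    emb s q r p (Sum.inl (Sum.inr i)) = p.1 i := rfl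
@[simp] lemma emb_inr (p : (Fin q → ℂ) × (Fin r → ℂ)) (i : Fin r) :
    emb s q r p (Sum.inr i) = p.2 i := rfl

lemma emb_continuous : Continuous (emb s q r) := (emb s q r).continuous_of_finiteDimensional

lemma emb_injective : Function.Injective (emb s q r) := by
  intro p p' h
  ext i
  · exact congrFun h (Sum.inl (Sum.inr i))
  · exact congrFun h (Sum.inr i)

lemma emb_mem_ball {x : (Fin s ⊕ Fin q) ⊕ Fin r → ℂ} (hx : ∀ i, x (Sum.inl (Sum.inl i)) = 0)
    {ε : ℝ} (hε : 0 < ε) (p : (Fin q → ℂ) × (Fin r → ℂ)) :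
    emb s q r p ∈ Metric.ball x ε ↔
      p.1 ∈ Metric.ball (fun j => x (Sum.inl (Sum.inr j))) ε ∧
        p.2 ∈ Metric.ball (fun j => x (Sum.inr j)) ε := by
  simp only [Metric.mem_ball, dist_pi_lt_iff hε]
  constructor
  · intro h
    exact ⟨fun j => h (Sum.inl (Sum.inr j)), fun j => h (Sum.inr j)⟩
  · rintro ⟨h1, h2⟩ i
    rcases i with (i | i) | i
    · simp [hx i, hε]
    · exact h1 i
    · exact h2 i

end emb

/-- **Generic point lemma.** -/
theorem generic_point {D : Set V} (hD : IsOpen D) {S : Set V} (hSD : S ⊆ D) (hS : S.Nonempty)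
    {u : V → F} (hu : AnalyticOnNhd ℂ u D) :
    ∃ a ∈ S, ∃ (q r : ℕ) (v₀ : Fin q → ℂ) (w₀ : Fin r → ℂ) (ε : ℝ)
      (ψ : (Fin q → ℂ) × (Fin r → ℂ) → V) (L : F →L[ℂ] (Fin q → ℂ)), 0 < ε ∧
      Function.Surjective L ∧
      AnalyticOnNhd ℂ ψ (Metric.ball v₀ ε ×ˢ Metric.ball w₀ ε) ∧ ψ (v₀, w₀) = a ∧
      InjOn ψ (Metric.ball v₀ ε ×ˢ Metric.ball w₀ ε) ∧
      MapsTo ψ (Metric.ball v₀ ε ×ˢ Metric.ball w₀ ε) D ∧
      (∃ O ∈ 𝓝 a, S ∩ O ⊆ ψ '' (Metric.ball v₀ ε ×ˢ Metric.ball w₀ ε)) ∧
      (∀ h ∈ Van D S, ∀ p ∈ Metric.ball v₀ ε ×ˢ Metric.ball w₀ ε, h (ψ p) = 0) ∧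
      (∀ v ∈ Metric.ball v₀ ε, ∀ w ∈ Metric.ball w₀ ε,
        L (u (ψ (v, w))) = v ∧ u (ψ (v, w)) = u (ψ (v, w₀))) := by
  classical
  obtain ⟨s, q, a, g, ℓ, haS, hg, hli, hmax1, hmax2⟩ := exists_max D S hS u
  have haD : a ∈ D := hSD haS
  obtain ⟨r, lam, hli2, hcard⟩ := exists_complete (fam u g ℓ a) hli
  obtain ⟨e, he⟩ := exists_equiv_of_indep (Sum.elim (fam u g ℓ a) lam) hli2 (by
    rw [Fintype.card_sum, Fintype.card_fin, hcard, finrank_clm])
  -- the coordinate map
  set Φ : V → ((Fin s ⊕ Fin q) ⊕ Fin r → ℂ) := fun x =>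
    Sum.elim (Sum.elim (fun i => g i x) (fun j => ℓ j (u x))) (fun k => lam k x) with hΦdef
  set row : ((Fin s ⊕ Fin q) ⊕ Fin r) → V → V →L[ℂ] ℂ := fun i x =>
    Sum.elim (fam u g ℓ x) lam i with hrow
  have hΦan : AnalyticOnNhd ℂ Φ D := by
    rw [show Φ = fun x i => Φ x i from rfl]
    intro x hx
    rw [analyticAt_pi_iff]
    rintro ((i | i) | i)
    · exact (hg i).1 x hx
    · exact analyticOnNhd_clm_comp hu (ℓ i) x hx
    · exact (lam i).analyticAt x
  have hΦd : ∀ x ∈ D, HasFDerivAt Φ (ContinuousLinearMap.pi (fun i => row i x)) x := by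
    intro x hx
    rw [hasFDerivAt_pi]
    rintro ((i | i) | i)
    · exact ((hg i).1 x hx).differentiableAt.hasFDerivAt
    · have h1 : HasFDerivAt u (fderiv ℂ u x) x := (hu x hx).differentiableAt.hasFDerivAt
      exact (ℓ i).hasFDerivAt.comp x h1
    · exact (lam i).hasFDerivAt
  have hea : ContinuousLinearMap.pi (fun i => row i a) = (e : V →L[ℂ] _) := by
    ext x i
    rw [ContinuousLinearMap.pi_apply]
    exact (he x i).symm
  -- matrices
  set A : V → Matrix ((Fin s ⊕ Fin q) ⊕ Fin r) ((Fin s ⊕ Fin q) ⊕ Fin r) ℂ :=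
    fun x => Matrix.of (fun i => toRow e (row i x)) with hA
  have hAan : ∀ i j, AnalyticOnNhd ℂ (fun x => A x i j) D := by
    intro i j
    rcases i with (i | i) | i
    · exact analyticOnNhd_toRow e (hg i).1 j
    · have h1 := analyticOnNhd_toRow e (analyticOnNhd_clm_comp hu (ℓ i)) j
      refine h1.congr hD ?_
      intro x hx
      simp only [fderiv_clm_comp hu (ℓ i) hx]
      rfl
    · exact (analyticOnNhd_const : AnalyticOnNhd ℂ (fun _ : V => toRow e (lam i) j) D)
  have hAa : A a = 1 := by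
    ext i j
    have h1 : A a i j = e (e.symm (Pi.single j 1)) i := (he _ i).symm
    rw [h1, e.apply_symm_apply, Matrix.one_apply, Pi.single_apply]
  have hdetan : AnalyticOnNhd ℂ (fun x => (A x).det) D := analyticOnNhd_det A hAan
  -- the operators
  set op : ((Fin s ⊕ Fin q) ⊕ Fin r) → (V → ℂ) → (V → ℂ) := fun c h =>
    Sum.elim (Sum.elim (fun _ => fun _ => (0 : ℂ))
      (fun j => fun x => ((A x).updateRow (Sum.inl (Sum.inr j)) (toRow e (fderiv ℂ h x))).det))
      (fun k => fun x => ((A x).updateRow (Sum.inr k) (toRow e (fderiv ℂ h x))).det) c with hop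
  have hopan : ∀ (c : (Fin s ⊕ Fin q) ⊕ Fin r) (h : V → ℂ), AnalyticOnNhd ℂ h D →
      AnalyticOnNhd ℂ (fun x => ((A x).updateRow c (toRow e (fderiv ℂ h x))).det) D := by
    intro c h hh
    apply analyticOnNhd_det
    intro i j
    by_cases hic : i = c
    · subst hic
      simp only [Matrix.updateRow_self]
      exact analyticOnNhd_toRow e hh j
    · simp only [Matrix.updateRow_ne hic]
      exact hAan i j
  have hopS : ∀ (c : (Fin s ⊕ Fin q) ⊕ Fin r) (hc : ∀ i, c ≠ Sum.inl (Sum.inl i)) (h : V → ℂ),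
      h ∈ Van D S → ∀ x ∈ S, ((A x).updateRow c (toRow e (fderiv ℂ h x))).det = 0 := by
    intro c hc h hh x hx
    have hinj : Function.Injective
        (Fin.cons c (fun i : Fin s => Sum.inl (Sum.inl i)) : Fin (s + 1) → _) := by
      rw [Fin.cons_injective_iff]
      refine ⟨?_, ?_⟩
      · rintro ⟨i, hi⟩
        exact hc i hi.symm
      · intro i j hij
        simpa using hij
    apply det_eq_zero_of_sub _ _ hinj
    intro hind
    have h1 : (fun k => ((A x).updateRow c (toRow e (fderiv ℂ h x)))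
        ((Fin.cons c (fun i : Fin s => Sum.inl (Sum.inl i)) : Fin (s + 1) → _) k)) =
        (toRow e) ∘ (fun k => fderiv ℂ ((Fin.cons h g : Fin (s + 1) → V → ℂ) k) x) := by
      funext k
      refine Fin.cases ?_ (fun i => ?_) k
      · simp only [Fin.cons_zero, Function.comp]
        rw [Matrix.updateRow_self]
      · simp only [Fin.cons_succ, Function.comp]
        rw [Matrix.updateRow_ne (fun hh => hc i hh.symm)]
        rfl
    rw [h1] at hind
    refine hmax1 x hx (Fin.cons h g) ?_ (LinearIndependent.of_comp _ hind)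
    intro k
    refine Fin.cases ?_ (fun i => ?_) k
    · exact hh
    · exact hg i
  have hopVan : ∀ c, ∀ h ∈ Van D S, op c h ∈ Van D S := by
    rintro ((c | c) | c) h hh
    · exact ⟨analyticOnNhd_const, fun _ _ => rfl⟩
    · exact ⟨hopan _ h hh.1, hopS _ (by simp) h hh⟩
    · exact ⟨hopan _ h hh.1, hopS _ (by simp) h hh⟩
  -- the functions testing the dependence of `u` on the last block
  have hEVan : ∀ (k : Fin r) (ℓ' : F →L[ℂ] ℂ),
      (fun x => ((A x).updateRow (Sum.inr k) (toRow e (fderiv ℂ (fun y => ℓ' (u y)) x))).det) ∈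
        Van D S := by
    intro k ℓ'
    refine ⟨hopan _ _ (analyticOnNhd_clm_comp hu ℓ'), ?_⟩
    intro x hx
    have hinj : Function.Injective
        (Sum.elim (fun i : Fin s => Sum.inl (Sum.inl i))
          (Fin.cons (Sum.inr k) (fun j : Fin q => Sum.inl (Sum.inr j)) : Fin (q + 1) → _) :
          Fin s ⊕ Fin (q + 1) → (Fin s ⊕ Fin q) ⊕ Fin r) := by
      rw [Sum.elim_injective]
      refine ⟨?_, ?_, ?_⟩
      · intro i j hij
        simpa using hij
      · rw [Fin.cons_injective_iff]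
        refine ⟨?_, ?_⟩
        · rintro ⟨i, hi⟩
          simp at hi
        · intro i j hij
          simpa using hij
      · intro i j
        refine Fin.cases ?_ (fun j => ?_) j
        · simp
        · simp
    apply det_eq_zero_of_sub _ _ hinj
    intro hind
    have h1 : (fun m => ((A x).updateRow (Sum.inr k) (toRow e (fderiv ℂ (fun y => ℓ' (u y)) x)))
        ((Sum.elim (fun i : Fin s => Sum.inl (Sum.inl i))
          (Fin.cons (Sum.inr k) (fun j : Fin q => Sum.inl (Sum.inr j)) : Fin (q + 1) → _) :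
          Fin s ⊕ Fin (q + 1) → (Fin s ⊕ Fin q) ⊕ Fin r) m)) =
        (toRow e) ∘ (fam u g (Fin.cons ℓ' ℓ : Fin (q + 1) → F →L[ℂ] ℂ) x) := by
      funext m
      rcases m with i | m
      · simp only [Sum.elim_inl, Function.comp]
        rw [Matrix.updateRow_ne (by simp)]
        rfl
      · refine Fin.cases ?_ (fun j => ?_) m
        · simp only [Sum.elim_inr, Fin.cons_zero, Function.comp]
          rw [Matrix.updateRow_self, fderiv_clm_comp hu ℓ' (hSD hx)]
          rfl
        · simp only [Sum.elim_inr, Fin.cons_succ, Function.comp]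
          rw [Matrix.updateRow_ne (by simp)]
          rfl
    rw [h1] at hind
    exact hmax2 x hx g hg (Fin.cons ℓ' ℓ) (LinearIndependent.of_comp _ hind)
  -- inverse function theorem
  have hca : ContDiffAt ℂ ⊤ Φ a := (hΦan a haD).contDiffAt
  have hfd : HasFDerivAt Φ (e : V →L[ℂ] _) a := by
    rw [← hea]; exact hΦd a haD
  set T := hca.toOpenPartialHomeomorph Φ hfd (by simp) with hT
  have hTcoe : ∀ x, T x = Φ x := fun x => rfl
  have haT : a ∈ T.source := hca.mem_toOpenPartialHomeomorph_source hfd (by simp)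
  have hΦaT : Φ a ∈ T.target := hca.image_mem_toOpenPartialHomeomorph_target hfd (by simp)
  have hTa : T.symm (Φ a) = a := T.left_inv haT
  have hTan : AnalyticAt ℂ T.symm (Φ a) := by
    apply ContDiffAt.analyticAt
    apply T.contDiffAt_symm hΦaT (f₀' := e)
    · rw [hTa]; exact hfd
    · rw [hTa]; exact hca
  have hcont : ContinuousAt T.symm (Φ a) := hTan.continuousAt
  have hev : ∀ᶠ y in 𝓝 (Φ a), AnalyticAt ℂ T.symm y ∧ y ∈ T.target ∧ T.symm y ∈ D ∧
      (A (T.symm y)).det ≠ 0 := by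
    have h00 : ∀ᶠ y in 𝓝 (Φ a), y ∈ T.target := T.open_target.mem_nhds hΦaT
    refine hTan.eventually_analyticAt.and (h00.and ?_)
    have h1 : ∀ᶠ y in 𝓝 (Φ a), T.symm y ∈ D := by
      apply hcont
      rw [hTa]
      exact hD.mem_nhds haD
    refine h1.and ?_
    have h2 : ContinuousAt (fun x => (A x).det) (T.symm (Φ a)) := by
      rw [hTa]; exact (hdetan a haD).continuousAt
    have h3 : ContinuousAt (fun y => (A (T.symm y)).det) (Φ a) :=
      ContinuousAt.comp (f := T.symm) (g := fun x => (A x).det) h2 hcont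
    apply h3.eventually_ne
    rw [hTa, hAa, Matrix.det_one]
    exact one_ne_zero
  obtain ⟨ε, hε, hball⟩ := Metric.eventually_nhds_iff_ball.mp hev
  have hzero : ∀ i, Φ a (Sum.inl (Sum.inl i)) = 0 := fun i => (hg i).2 a haS
  set v₀ : Fin q → ℂ := fun j => Φ a (Sum.inl (Sum.inr j)) with hv₀
  set w₀ : Fin r → ℂ := fun k => Φ a (Sum.inr k) with hw₀
  have hemb0 : emb s q r (v₀, w₀) = Φ a := by
    funext i
    rcases i with (i | i) | i
    · simp [hzero i]
    · rfl
    · rfl
  have hmem : ∀ p : (Fin q → ℂ) × (Fin r → ℂ), emb s q r p ∈ Metric.ball (Φ a) ε ↔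
      p ∈ Metric.ball v₀ ε ×ˢ Metric.ball w₀ ε := fun p => emb_mem_ball hzero hε p
  -- the derivative formula
  have hderiv : ∀ y ∈ Metric.ball (Φ a) ε, ∀ (η : V →L[ℂ] ℂ) (ζ : (Fin s ⊕ Fin q) ⊕ Fin r → ℂ),
      (A (T.symm y)).det * η (fderiv ℂ T.symm y ζ) =
        ∑ c, ζ c * ((A (T.symm y)).updateRow c (toRow e η)).det := by
    intro y hy η ζ
    obtain ⟨hy1, hy2, hy3, hy4⟩ := hball y hy
    have h1 : (ContinuousLinearMap.pi (fun i => row i (T.symm y))).comp (fderiv ℂ T.symm y) =
        ContinuousLinearMap.id ℂ _ := by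
      have h2 : HasFDerivAt (fun z => Φ (T.symm z))
          ((ContinuousLinearMap.pi (fun i => row i (T.symm y))).comp (fderiv ℂ T.symm y)) y :=
        (hΦd _ hy3).comp y hy1.differentiableAt.hasFDerivAt
      have h3 : HasFDerivAt (fun z => Φ (T.symm z)) (ContinuousLinearMap.id ℂ _) y := by
        apply (hasFDerivAt_id y).congr_of_eventuallyEq
        filter_upwards [T.open_target.mem_nhds hy2] with z hz
        exact T.right_inv hz
      exact h2.unique h3
    have h4 : (A (T.symm y)).mulVec (e (fderiv ℂ T.symm y ζ)) = ζ := by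
      funext i
      have h5 : (A (T.symm y)).mulVec (e (fderiv ℂ T.symm y ζ)) i =
          toRow e (row i (T.symm y)) ⬝ᵥ (e (fderiv ℂ T.symm y ζ)) := rfl
      rw [h5, toRow_dot, e.symm_apply_apply]
      have h6 := congrFun (congrArg (fun (f : _ →L[ℂ] _) => f ζ) h1) i
      simpa using h6
    have h7 := det_mul_dotProduct (A (T.symm y)) (toRow e η) (e (fderiv ℂ T.symm y ζ))
    rw [h4, toRow_dot, e.symm_apply_apply] at h7
    exact h7
  -- vanishing on the submanifold
  have hvan : ∀ h ∈ Van D S, ∀ p ∈ Metric.ball v₀ ε ×ˢ Metric.ball w₀ ε,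
      h (T.symm (emb s q r p)) = 0 := by
    intro h hh p hp
    set ζ := emb s q r (p - (v₀, w₀)) with hζ
    have hζ0 : ∀ i, ζ (Sum.inl (Sum.inl i)) = 0 := fun i => rfl
    have hendpt : Φ a + ζ = emb s q r p := by
      rw [hζ, map_sub, hemb0]; abel
    set Ω : Set ℂ := {t : ℂ | Φ a + t • ζ ∈ Metric.ball (Φ a) ε} with hΩ
    have hlin : ∀ t : ℂ, Φ a + t • ζ = (fun t : ℂ => Φ a + t • ζ) t := fun t => rfl
    have hcontlin : Continuous (fun t : ℂ => Φ a + t • ζ) := by fun_prop
    have hΩopen : IsOpen Ω := Metric.isOpen_ball.preimage hcontlin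
    have hΩconv : Convex ℝ Ω := by
      intro t ht t' ht' α β hα hβ hαβ
      have h1 : Φ a + (α • t + β • t') • ζ = α • (Φ a + t • ζ) + β • (Φ a + t' • ζ) := by
        rw [smul_add, smul_add, add_add_add_comm, ← add_smul α β, hαβ, one_smul, add_smul,
          smul_assoc, smul_assoc]
      have h2 := convex_ball (Φ a) ε ht ht' hα hβ hαβ
      change Φ a + (α • t + β • t') • ζ ∈ Metric.ball (Φ a) ε
      rw [h1]
      exact h2
    have h0Ω : (0 : ℂ) ∈ Ω := by simp [hΩ, hε]
    have h1Ω : (1 : ℂ) ∈ Ω := by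
      change Φ a + (1 : ℂ) • ζ ∈ Metric.ball (Φ a) ε
      rw [one_smul, hendpt]
      exact (hmem p).mpr hp
    set ρ : ℂ → V := fun t => T.symm (Φ a + t • ζ) with hρ
    have hρan : AnalyticOnNhd ℂ ρ Ω := by
      intro t ht
      have h1 : AnalyticAt ℂ (fun t : ℂ => Φ a + t • ζ) t := by fun_prop
      exact AnalyticAt.fun_comp (g := T.symm) (f := fun t : ℂ => Φ a + t • ζ) (hball _ ht).1 h1
    have hρ0 : ρ 0 = a := by simp [hρ, hTa]
    have hcurve : (fun t => h (ρ t)) =ᶠ[𝓝 0] 0 := by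
      refine curve_lemma hSD (hρan 0 h0Ω) (by rw [hρ0]; exact haS)
        (fun c t => ζ c / (A (ρ t)).det) ?_ op hopVan ?_ hh
      · intro c
        apply analyticAt_const.div
        · exact (hdetan _ (by rw [hρ0]; exact haD)).fun_comp (hρan 0 h0Ω)
        · rw [hρ0, hAa, Matrix.det_one]; exact one_ne_zero
      · intro h' hh'
        filter_upwards [hΩopen.mem_nhds h0Ω] with t ht
        obtain ⟨hy1, hy2, hy3, hy4⟩ := hball _ ht
        have h1 : HasDerivAt (fun t : ℂ => Φ a + t • ζ) ζ t := by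
          have := ((hasDerivAt_id t).smul_const ζ).const_add (Φ a)
          simpa using this
        have h2 : HasDerivAt ρ (fderiv ℂ T.symm (Φ a + t • ζ) ζ) t :=
          (hy1.differentiableAt.hasFDerivAt).comp_hasDerivAt t h1
        have h3 : HasDerivAt (fun t => h' (ρ t))
            (fderiv ℂ h' (ρ t) (fderiv ℂ T.symm (Φ a + t • ζ) ζ)) t :=
          ((hh'.1 _ hy3).differentiableAt.hasFDerivAt).comp_hasDerivAt t h2
        rw [h3.deriv]
        have h4 := hderiv _ ht (fderiv ℂ h' (ρ t)) ζ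
        have h5 : fderiv ℂ h' (ρ t) (fderiv ℂ T.symm (Φ a + t • ζ) ζ) =
            (∑ c, ζ c * ((A (ρ t)).updateRow c (toRow e (fderiv ℂ h' (ρ t)))).det) /
              (A (ρ t)).det := by
          rw [eq_div_iff hy4, mul_comm]
          exact h4
        rw [h5, Finset.sum_div]
        apply Finset.sum_congr rfl
        rintro ((c | c) | c) _
        · rw [hζ0 c]; simp
        · simp only [hop]
          rw [mul_div_right_comm]
          rfl
        · simp only [hop]
          rw [mul_div_right_comm]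
          rfl
    have han : AnalyticOnNhd ℂ (fun t => h (ρ t)) Ω := by
      intro t ht
      exact AnalyticAt.fun_comp (g := h) (f := ρ) (hh.1 _ (hball _ ht).2.2.1) (hρan t ht)
    have hz := han.eqOn_zero_of_preconnected_of_eventuallyEq_zero hΩconv.isPreconnected h0Ω hcurve
      h1Ω
    have h6 : ρ 1 = T.symm (emb s q r p) := by
      simp only [hρ]
      rw [one_smul, hendpt]
    simpa [h6] using hz
  -- conclusion
  refine ⟨a, haS, q, r, v₀, w₀, ε, fun p => T.symm (emb s q r p),
    ContinuousLinearMap.pi ℓ, hε, ?_, ?_, ?_, ?_, ?_, ?_, hvan, ?_⟩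
  · -- surjectivity of `L`
    intro c
    refine ⟨fderiv ℂ u a (e.symm (Sum.elim (Sum.elim 0 c) 0)), ?_⟩
    funext j
    have h1 := he (e.symm (Sum.elim (Sum.elim 0 c) 0)) (Sum.inl (Sum.inr j))
    rw [e.apply_symm_apply] at h1
    exact h1.symm
  · intro p hp
    have h1 : AnalyticAt ℂ (emb s q r) p := by
      have := ((emb s q r).toContinuousLinearMap).analyticAt p
      exact this
    exact ((hball _ ((hmem p).mpr hp)).1).fun_comp h1
  · simp only [hemb0, hTa]
  · intro p hp p' hp' hpp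
    have h1 := (hball _ ((hmem p).mpr hp)).2.1
    have h2 := (hball _ ((hmem p').mpr hp')).2.1
    have h3 : T (T.symm (emb s q r p)) = T (T.symm (emb s q r p')) := by
      simp only at hpp
      rw [hpp]
    rw [T.right_inv h1, T.right_inv h2] at h3
    exact emb_injective h3
  · intro p hp
    exact (hball _ ((hmem p).mpr hp)).2.2.1
  · refine ⟨T.source ∩ Φ ⁻¹' (Metric.ball (Φ a) ε), ?_, ?_⟩
    · apply Filter.inter_mem (T.open_source.mem_nhds haT)
      exact (hΦan a haD).continuousAt.preimage_mem_nhds (Metric.ball_mem_nhds _ hε)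
    · rintro x ⟨hxS, hxT, hxB⟩
      have hΦx : emb s q r (fun j => ℓ j (u x), fun k => lam k x) = Φ x := by
        funext i
        rcases i with (i | i) | i
        · exact ((hg i).2 x hxS).symm
        · rfl
        · rfl
      refine ⟨(fun j => ℓ j (u x), fun k => lam k x), ?_, ?_⟩
      · rw [← hmem, hΦx]
        exact hxB
      · simp only [hΦx]
        exact T.left_inv hxT
  · intro v hv w hw
    have hp : (v, w) ∈ Metric.ball v₀ ε ×ˢ Metric.ball w₀ ε := ⟨hv, hw⟩
    have hright : ∀ p ∈ Metric.ball v₀ ε ×ˢ Metric.ball w₀ ε,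
        Φ (T.symm (emb s q r p)) = emb s q r p := by
      intro p hp
      exact T.right_inv (hball _ ((hmem p).mpr hp)).2.1
    constructor
    · funext j
      have := congrFun (hright _ hp) (Sum.inl (Sum.inr j))
      exact this
    · -- the derivative in the direction of the last block vanishes
      have hdiff : ∀ w' ∈ Metric.ball w₀ ε, HasFDerivAt (fun w => u (T.symm (emb s q r (v, w))))
          ((fderiv ℂ u (T.symm (emb s q r (v, w')))).comp
            ((fderiv ℂ T.symm (emb s q r (v, w'))).comp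
              ((emb s q r).toContinuousLinearMap.comp (ContinuousLinearMap.inr ℂ _ _)))) w' := by
        intro w' hw'
        obtain ⟨hy1, hy2, hy3, hy4⟩ := hball _ ((hmem (v, w')).mpr ⟨hv, hw'⟩)
        have h1 : HasFDerivAt (fun w : Fin r → ℂ => ((v, w) : (Fin q → ℂ) × (Fin r → ℂ)))
            (ContinuousLinearMap.inr ℂ _ _) w' := hasFDerivAt_prodMk_right v w'
        have h2 : HasFDerivAt (fun w : Fin r → ℂ => emb s q r (v, w))
            ((emb s q r).toContinuousLinearMap.comp (ContinuousLinearMap.inr ℂ _ _)) w' := by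
          exact ((emb s q r).toContinuousLinearMap.hasFDerivAt).comp w' h1
        have h3 : HasFDerivAt (fun w : Fin r → ℂ => T.symm (emb s q r (v, w)))
            ((fderiv ℂ T.symm (emb s q r (v, w'))).comp
              ((emb s q r).toContinuousLinearMap.comp (ContinuousLinearMap.inr ℂ _ _))) w' :=
          HasFDerivAt.comp (f := fun w : Fin r → ℂ => emb s q r (v, w)) w'
            hy1.differentiableAt.hasFDerivAt h2
        exact HasFDerivAt.comp (f := fun w : Fin r → ℂ => T.symm (emb s q r (v, w))) w'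
          (hu _ hy3).differentiableAt.hasFDerivAt h3
      have hzero' : EqOn (fderiv ℂ (fun w => u (T.symm (emb s q r (v, w))))) 0
          (Metric.ball w₀ ε) := by
        intro w' hw'
        rw [(hdiff w' hw').fderiv]
        ext ω
        by_contra hne
        obtain ⟨ℓ', hℓ'⟩ := SeparatingDual.exists_ne_zero (R := ℂ) hne
        apply hℓ'
        have hmem' := (hmem (v, w')).mpr ⟨hv, hw'⟩
        obtain ⟨hy1, hy2, hy3, hy4⟩ := hball _ hmem'
        have h1 := hderiv _ hmem' (ℓ'.comp (fderiv ℂ u (T.symm (emb s q r (v, w')))))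
          (emb s q r (0, ω))
        have h2 : ∑ c, (emb s q r (0, ω)) c *
            ((A (T.symm (emb s q r (v, w')))).updateRow c
              (toRow e (ℓ'.comp (fderiv ℂ u (T.symm (emb s q r (v, w')))))) ).det = 0 := by
          apply Finset.sum_eq_zero
          rintro ((c | c) | c) _
          · simp
          · simp
          · have h3 := hvan _ (hEVan c ℓ') (v, w') ⟨hv, hw'⟩
            rw [fderiv_clm_comp hu ℓ' hy3] at h3
            rw [h3, mul_zero]
        rw [h2] at h1
        have h4 := (mul_eq_zero.mp h1).resolve_left hy4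
        exact h4
      exact Metric.isOpen_ball.is_const_of_fderiv_eq_zero (𝕜 := ℂ)
        (convex_ball w₀ ε).isPreconnected
        (fun w' hw' => (hdiff w' hw').differentiableAt.differentiableWithinAt) hzero' hw
        (Metric.mem_ball_self hε)

end Pool.Agent.Hhelper87.Crit
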