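import Mathlib
import Pool.Agent.Hhelper87.Crit.Generic2

/-!
Countable coverings by holomorphic images of open subsets of `ℂ^e`, and embedded balls.
-/

namespace Pool.Agent.Hhelper87.Crit

open Module Filter Topology Set
open scoped Manifold ContDiff

set_option linter.unusedSectionVars false

section defs

variable {E : Type*} [NormedAddCommGroup E] [NormedSpace ℂ E]
  {X : Type*} [TopologicalSpace X] [ChartedSpace E X]

variable (E) in
/-- `T` is contained in a countable union of images of holomorphic maps defined on open subsets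
of `ℂ^e`. -/
def Cov (e : ℕ) (T : Set X) : Prop :=
  ∃ (O : ℕ → Set (Fin e → ℂ)) (φ : ℕ → (Fin e → ℂ) → X),
    (∀ i, IsOpen (O i) ∧ ContMDiffOn 𝓘(ℂ, Fin e → ℂ) 𝓘(ℂ, E) ω (φ i) (O i)) ∧
      T ⊆ ⋃ i, φ i '' O i

variable (E) in
/-- `T` contains an injectively immersed nonempty open subset of `ℂ^d`. -/
def HasBall (d : ℕ) (T : Set X) : Prop :=
  ∃ (O : Set (Fin d → ℂ)) (φ : (Fin d → ℂ) → X), IsOpen O ∧ O.Nonempty ∧
    ContMDiffOn 𝓘(ℂ, Fin d → ℂ) 𝓘(ℂ, E) ω φ O ∧ InjOn φ O ∧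
    (∀ v ∈ O, Function.Injective (mfderiv 𝓘(ℂ, Fin d → ℂ) 𝓘(ℂ, E) φ v)) ∧ φ '' O ⊆ T

lemma Cov.mono {e : ℕ} {S T : Set X} (hT : Cov E e T) (h : S ⊆ T) : Cov E e S := by
  obtain ⟨O, φ, h1, h2⟩ := hT
  exact ⟨O, φ, h1, h.trans h2⟩

lemma HasBall.mono {d : ℕ} {S T : Set X} (hS : HasBall E d S) (h : S ⊆ T) : HasBall E d T := by
  obtain ⟨O, φ, h1, h2, h3, h4, h5, h6⟩ := hS
  exact ⟨O, φ, h1, h2, h3, h4, h5, h6.trans h⟩

lemma Cov.iUnion {e : ℕ} {T : ℕ → Set X} (hT : ∀ n, Cov E e (T n)) : Cov E e (⋃ n, T n) := by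
  choose O φ h1 h2 using hT
  refine ⟨fun m => O (Nat.unpair m).1 (Nat.unpair m).2, fun m => φ (Nat.unpair m).1 (Nat.unpair m).2,
    fun m => h1 _ _, ?_⟩
  intro x hx
  rw [mem_iUnion] at hx
  obtain ⟨n, hn⟩ := hx
  have := h2 n hn
  rw [mem_iUnion] at this
  obtain ⟨i, hi⟩ := this
  rw [mem_iUnion]
  refine ⟨Nat.pair n i, ?_⟩
  simp only [Nat.unpair_pair]
  exact hi

variable [Nonempty X]

lemma Cov.empty {e : ℕ} : Cov E e (∅ : Set X) := by
  refine ⟨fun _ => ∅, fun _ _ => Classical.arbitrary X, fun _ => ⟨isOpen_empty, ?_⟩, empty_subset _⟩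
  intro x hx
  exact hx.elim

lemma Cov.union {e : ℕ} {S T : Set X} (hS : Cov E e S) (hT : Cov E e T) : Cov E e (S ∪ T) := by
  have : S ∪ T ⊆ ⋃ n : ℕ, (if n = 0 then S else T) := by
    rintro x (hx | hx)
    · exact mem_iUnion.mpr ⟨0, by simpa using hx⟩
    · exact mem_iUnion.mpr ⟨1, by simpa using hx⟩
  refine Cov.mono (Cov.iUnion (fun n => ?_)) this
  split_ifs
  · exact hS
  · exact hT

lemma Cov.biUnion {e : ℕ} {α : Type*} {t : Set α} (ht : t.Countable) {T : α → Set X}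
    (hT : ∀ a ∈ t, Cov E e (T a)) : Cov E e (⋃ a ∈ t, T a) := by
  rcases t.eq_empty_or_nonempty with rfl | hne
  · simpa using Cov.empty
  · obtain ⟨f, rfl⟩ := ht.exists_eq_range hne
    have : (⋃ a ∈ range f, T a) = ⋃ n, T (f n) := by simp
    rw [this]
    exact Cov.iUnion fun n => hT _ (mem_range_self n)

/-- local to global -/
lemma Cov.of_local {e : ℕ} {Y : Type*} [TopologicalSpace Y] [SecondCountableTopology Y] {S : Set Y}
    {f : Y → X} (h : ∀ a ∈ S, ∃ N ∈ 𝓝 a, Cov E e (f '' (S ∩ N))) : Cov E e (f '' S) := by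
  classical
  choose! N hN hC using h
  obtain ⟨t, htS, htc, hcov⟩ := TopologicalSpace.countable_cover_nhdsWithin
    (s := S) (f := N) (fun a ha => mem_nhdsWithin_of_mem_nhds (hN a ha))
  refine Cov.mono (Cov.biUnion htc (T := fun a => f '' (S ∩ N a)) (fun a ha => hC a (htS ha))) ?_
  rintro _ ⟨x, hx, rfl⟩
  have := hcov hx
  rw [mem_iUnion₂] at this ⊢
  obtain ⟨a, ha, hxa⟩ := this
  exact ⟨a, ha, x, ⟨hx, hxa⟩, rfl⟩

lemma Cov.image {E' : Type*} [NormedAddCommGroup E'] [NormedSpace ℂ E'] {Y : Type*}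
    [TopologicalSpace Y] [ChartedSpace E' Y] {e : ℕ} {S : Set Y} (hS : Cov E' e S) {f : Y → X}
    {D : Set Y} (hD : IsOpen D) (hf : ContMDiffOn 𝓘(ℂ, E') 𝓘(ℂ, E) ω f D) (hSD : S ⊆ D) :
    Cov E e (f '' S) := by
  obtain ⟨O, φ, h1, h2⟩ := hS
  refine ⟨fun i => O i ∩ φ i ⁻¹' D, fun i => f ∘ φ i, fun i => ⟨?_, ?_⟩, ?_⟩
  · exact (h1 i).2.continuousOn.isOpen_inter_preimage (h1 i).1 hD
  · exact hf.comp ((h1 i).2.mono inter_subset_left) inter_subset_right
  · rintro _ ⟨x, hx, rfl⟩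
    have := h2 hx
    rw [mem_iUnion] at this ⊢
    obtain ⟨i, v, hv, rfl⟩ := this
    exact ⟨i, v, ⟨hv, hSD hx⟩, rfl⟩

end defs

section local_lemmas

variable {V F : Type*} [NormedAddCommGroup V] [NormedSpace ℂ V] [FiniteDimensional ℂ V]
  [NormedAddCommGroup F] [NormedSpace ℂ F] [FiniteDimensional ℂ F]

lemma AnalyticOnNhd.contMDiffOn' {f : V → F} {s : Set V} (hf : AnalyticOnNhd ℂ f s) :
    ContMDiffOn 𝓘(ℂ, V) 𝓘(ℂ, F) ω f s := by
  rw [contMDiffOn_iff_contDiffOn]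
  intro x hx
  exact (hf x hx).contDiffAt.contDiffWithinAt

/-- the part of the zero set of `J` consisting of the points which are isolated in their `u`-fibre
is covered by countably many `e`-dimensional holomorphic images -/
theorem cov_iso {e : ℕ} {D : Set V} (hD : IsOpen D) (J : Set (V → ℂ))
    (hJ : ∀ h ∈ J, AnalyticOnNhd ℂ h D) {u : V → (Fin e → ℂ)} (hu : AnalyticOnNhd ℂ u D) :
    Cov V e {a : V | (a ∈ D ∧ ∀ h ∈ J, h a = 0) ∧
      ∃ N ∈ 𝓝 a, ∀ x ∈ N, x ∈ D → (∀ h ∈ J, h x = 0) → u x = u a → x = a} := by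
  classical
  set Iso : Set V := {a : V | (a ∈ D ∧ ∀ h ∈ J, h a = 0) ∧
      ∃ N ∈ 𝓝 a, ∀ x ∈ N, x ∈ D → (∀ h ∈ J, h x = 0) → u x = u a → x = a} with hIso
  by_contra hcon
  have : SecondCountableTopology V := secondCountable_of_proper
  set S : Set V := {a ∈ Iso | ∀ N ∈ 𝓝 a, ¬ Cov V e (Iso ∩ N)} with hSdef
  have hSne : S.Nonempty := by
    by_contra hemp
    rw [not_nonempty_iff_eq_empty] at hemp
    apply hcon
    have h1 : Cov V e (id '' Iso) := by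
      apply Cov.of_local
      intro a ha
      by_contra hloc
      push Not at hloc
      have : a ∈ S := ⟨ha, fun N hN => by simpa using hloc N hN⟩
      rw [hemp] at this
      exact this
    simpa using h1
  have hdiff : Cov V e (Iso \ S) := by
    have h1 : Cov V e (id '' (Iso \ S)) := by
      apply Cov.of_local
      rintro a ⟨ha, haS⟩
      have : ∃ N ∈ 𝓝 a, Cov V e (Iso ∩ N) := by
        by_contra hloc
        push Not at hloc
        exact haS ⟨ha, hloc⟩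
      obtain ⟨N, hN, hC⟩ := this
      refine ⟨N, hN, ?_⟩
      rw [image_id]
      exact hC.mono (inter_subset_inter_left _ sdiff_subset)
    simpa using h1
  have hSD : S ⊆ D := fun x hx => hx.1.1.1
  obtain ⟨a, haS, q, r, v₀, w₀, ε, ψ, L, hε, hLsurj, hψan, hψ0, hψinj, hψD, ⟨O, hO, hSO⟩, hvan,
    hrank⟩ := generic_point hD hSD hSne hu
  have hv₀ : v₀ ∈ Metric.ball v₀ ε := Metric.mem_ball_self hε
  have hw₀ : w₀ ∈ Metric.ball w₀ ε := Metric.mem_ball_self hε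
  have hJVan : ∀ h ∈ J, h ∈ Van D S := fun h hh => ⟨hJ h hh, fun x hx => hx.1.1.2 h hh⟩
  -- `r = 0`
  have hr : r = 0 := by
    by_contra hr
    obtain ⟨N, hN, hiso⟩ := haS.1.2
    have : Nontrivial (Fin r → ℂ) := by
      have : Nonempty (Fin r) := ⟨⟨0, Nat.pos_of_ne_zero hr⟩⟩
      infer_instance
    have : (𝓝[≠] w₀).NeBot := inferInstance
    have hcont : ContinuousAt (fun w => ψ (v₀, w)) w₀ := by
      have h1 : ContinuousAt ψ (v₀, w₀) := (hψan _ ⟨hv₀, hw₀⟩).continuousAt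
      exact ContinuousAt.comp (f := fun w => (v₀, w)) h1 (by fun_prop)
    have h01 : ∀ᶠ w in 𝓝 w₀, ψ (v₀, w) ∈ N := hcont (by simpa [hψ0] using hN)
    have h02 : ∀ᶠ w in 𝓝 w₀, w ∈ Metric.ball w₀ ε := Metric.ball_mem_nhds _ hε
    have h1 : ∀ᶠ w in 𝓝 w₀, ψ (v₀, w) ∈ N ∧ w ∈ Metric.ball w₀ ε := h01.and h02
    have h1' : ∀ᶠ w in 𝓝[≠] w₀, (ψ (v₀, w) ∈ N ∧ w ∈ Metric.ball w₀ ε) ∧ w ≠ w₀ :=
      (h1.filter_mono nhdsWithin_le_nhds).and self_mem_nhdsWithin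
    obtain ⟨w, ⟨hw1, hw2⟩, hw3⟩ := h1'.exists
    have h2 : ψ (v₀, w) = a := by
      apply hiso _ hw1 (hψD ⟨hv₀, hw2⟩) (fun h hh => hvan h (hJVan h hh) _ ⟨hv₀, hw2⟩)
      rw [(hrank v₀ hv₀ w hw2).2, hψ0]
    rw [← hψ0] at h2
    have h3 := hψinj (show (v₀, w) ∈ Metric.ball v₀ ε ×ˢ Metric.ball w₀ ε from ⟨hv₀, hw2⟩)
      (show (v₀, w₀) ∈ Metric.ball v₀ ε ×ˢ Metric.ball w₀ ε from ⟨hv₀, hw₀⟩) h2
    exact hw3 (Prod.ext_iff.mp h3).2
  subst hr
  -- the image is covered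
  have himg : Cov V e (ψ '' (Metric.ball v₀ ε ×ˢ Metric.ball w₀ ε)) := by
    refine ⟨fun _ => L ⁻¹' (Metric.ball v₀ ε), fun _ x => ψ (L x, w₀), fun _ => ⟨?_, ?_⟩, ?_⟩
    · exact Metric.isOpen_ball.preimage L.continuous
    · apply AnalyticOnNhd.contMDiffOn'
      intro x hx
      have h1 : AnalyticAt ℂ (fun x => (L x, w₀)) x := (L.analyticAt x).prod analyticAt_const
      exact AnalyticAt.fun_comp (g := ψ) (f := fun x => (L x, w₀)) (hψan (L x, w₀) ⟨hx, hw₀⟩) h1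
    · rintro _ ⟨⟨v, w⟩, ⟨hv, hw⟩, rfl⟩
      rw [mem_iUnion]
      obtain ⟨x, hx⟩ := hLsurj v
      refine ⟨0, x, ?_, ?_⟩
      · change L x ∈ Metric.ball v₀ ε
        rw [hx]; exact hv
      · simp only [hx]
        rw [Subsingleton.elim w w₀]
  apply haS.2 O hO
  refine Cov.mono (hdiff.union himg) ?_
  rintro x ⟨hx, hxO⟩
  by_cases hxS : x ∈ S
  · exact Or.inr (hSO ⟨hxS, hxO⟩)
  · exact Or.inl ⟨hx, hxS⟩

/-- the image of the zero set of `J` under `w` is covered by countably many `e`-dimensional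
holomorphic images as soon as it contains no immersed ball of dimension `> e` -/
theorem cov_image {e : ℕ} {D : Set V} (hD : IsOpen D) (J : Set (V → ℂ))
    (hJ : ∀ h ∈ J, AnalyticOnNhd ℂ h D) {u : V → F} (hu : AnalyticOnNhd ℂ u D)
    (hball : ∀ d, HasBall F d (u '' {a : V | a ∈ D ∧ ∀ h ∈ J, h a = 0}) → d ≤ e) :
    Cov F e (u '' {a : V | a ∈ D ∧ ∀ h ∈ J, h a = 0}) := by
  classical
  set Z : Set V := {a : V | a ∈ D ∧ ∀ h ∈ J, h a = 0} with hZ
  by_contra hcon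
  have : SecondCountableTopology V := secondCountable_of_proper
  set S : Set V := {a ∈ Z | ∀ N ∈ 𝓝 a, ¬ Cov F e (u '' (Z ∩ N))} with hSdef
  have hSne : S.Nonempty := by
    by_contra hemp
    rw [not_nonempty_iff_eq_empty] at hemp
    apply hcon
    apply Cov.of_local
    intro a ha
    by_contra hloc
    push Not at hloc
    have : a ∈ S := ⟨ha, hloc⟩
    rw [hemp] at this
    exact this
  have hdiff : Cov F e (u '' (Z \ S)) := by
    apply Cov.of_local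
    rintro a ⟨ha, haS⟩
    have : ∃ N ∈ 𝓝 a, Cov F e (u '' (Z ∩ N)) := by
      by_contra hloc
      push Not at hloc
      exact haS ⟨ha, hloc⟩
    obtain ⟨N, hN, hC⟩ := this
    exact ⟨N, hN, hC.mono (image_mono (inter_subset_inter_left _ sdiff_subset))⟩
  have hSD : S ⊆ D := fun x hx => hx.1.1
  obtain ⟨a, haS, q, r, v₀, w₀, ε, ψ, L, hε, hLsurj, hψan, hψ0, hψinj, hψD, ⟨O, hO, hSO⟩, hvan,
    hrank⟩ := generic_point hD hSD hSne hu
  have hv₀ : v₀ ∈ Metric.ball v₀ ε := Metric.mem_ball_self hε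
  have hw₀ : w₀ ∈ Metric.ball w₀ ε := Metric.mem_ball_self hε
  have hJVan : ∀ h ∈ J, h ∈ Van D S := fun h hh => ⟨hJ h hh, fun x hx => hx.1.2 h hh⟩
  set uu : (Fin q → ℂ) → F := fun v => u (ψ (v, w₀)) with huu
  have huan : AnalyticOnNhd ℂ uu (Metric.ball v₀ ε) := by
    intro v hv
    have h1 : AnalyticAt ℂ (fun v : Fin q → ℂ => (v, w₀)) v := analyticAt_id.prod analyticAt_const
    have h2 : AnalyticAt ℂ (fun v => ψ (v, w₀)) v :=
      AnalyticAt.fun_comp (g := ψ) (f := fun v : Fin q → ℂ => (v, w₀)) (hψan (v, w₀) ⟨hv, hw₀⟩) h1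
    exact AnalyticAt.fun_comp (g := u) (f := fun v => ψ (v, w₀)) (hu _ (hψD ⟨hv, hw₀⟩)) h2
  have hq : q ≤ e := by
    apply hball
    refine ⟨Metric.ball v₀ ε, uu, Metric.isOpen_ball, ⟨v₀, hv₀⟩, AnalyticOnNhd.contMDiffOn' huan,
      ?_, ?_, ?_⟩
    · intro v hv v' hv' h
      rw [← (hrank v hv w₀ hw₀).1, ← (hrank v' hv' w₀ hw₀).1]
      exact congrArg L h
    · intro v hv
      rw [mfderiv_eq_fderiv]
      have h1 : HasFDerivAt uu (fderiv ℂ uu v) v := (huan v hv).differentiableAt.hasFDerivAt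
      have h2 : HasFDerivAt (fun v => L (uu v)) (L.comp (fderiv ℂ uu v)) v :=
        L.hasFDerivAt.comp v h1
      have h3 : HasFDerivAt (fun v => L (uu v)) (ContinuousLinearMap.id ℂ _) v := by
        apply (hasFDerivAt_id v).congr_of_eventuallyEq
        filter_upwards [Metric.isOpen_ball.mem_nhds hv] with v' hv'
        exact (hrank v' hv' w₀ hw₀).1
      have h4 := h2.unique h3
      intro x y hxy
      have h5 := congrArg (fun f => f x) h4
      have h6 := congrArg (fun f => f y) h4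
      simp only [ContinuousLinearMap.comp_apply, ContinuousLinearMap.id_apply] at h5 h6
      rw [← h5, ← h6]
      exact congrArg L hxy
    · rintro _ ⟨v, hv, rfl⟩
      exact ⟨ψ (v, w₀), ⟨hψD ⟨hv, hw₀⟩, fun h hh => hvan h (hJVan h hh) _ ⟨hv, hw₀⟩⟩, rfl⟩
  have himg : Cov F e (u '' (S ∩ O)) := by
    set pr : (Fin e → ℂ) →L[ℂ] (Fin q → ℂ) :=
      ContinuousLinearMap.pi (fun j => ContinuousLinearMap.proj (Fin.castLE hq j)) with hpr
    have hprsurj : Function.Surjective pr := by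
      intro v
      refine ⟨fun i => if h : (i : ℕ) < q then v ⟨i, h⟩ else 0, ?_⟩
      funext j
      simp [hpr]
    refine ⟨fun _ => pr ⁻¹' (Metric.ball v₀ ε), fun _ x => uu (pr x), fun _ => ⟨?_, ?_⟩, ?_⟩
    · exact Metric.isOpen_ball.preimage pr.continuous
    · apply AnalyticOnNhd.contMDiffOn'
      intro x hx
      exact AnalyticAt.fun_comp (g := uu) (f := pr) (huan (pr x) hx) (pr.analyticAt x)
    · rintro _ ⟨x, hx, rfl⟩
      obtain ⟨⟨v, w⟩, ⟨hv, hw⟩, rfl⟩ := hSO hx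
      rw [mem_iUnion]
      obtain ⟨x, hx⟩ := hprsurj v
      refine ⟨0, x, ?_, ?_⟩
      · change pr x ∈ Metric.ball v₀ ε
        rw [hx]; exact hv
      · simp only [hx]
        exact ((hrank v hv w hw).2).symm
  apply haS.2 O hO
  refine Cov.mono (hdiff.union himg) ?_
  rintro _ ⟨x, ⟨hx, hxO⟩, rfl⟩
  by_cases hxS : x ∈ S
  · exact Or.inr ⟨x, ⟨hxS, hxO⟩, rfl⟩
  · exact Or.inl ⟨x, ⟨hx, hxS⟩, rfl⟩

end local_lemmas

end Pool.Agent.Hhelper87.Crit
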