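import Mathlib
import Pool.Agent.Hhelper87.Crit.Cover

/-!
A set covered by countably many `e`-dimensional holomorphic images contains no immersed ball of
dimension `> e`.
-/

namespace Pool.Agent.Hhelper87.Crit

open Module Filter Topology Set
open scoped Manifold ContDiff

set_option linter.unusedSectionVars false

variable {E : Type*} [NormedAddCommGroup E] [NormedSpace ℂ E] [FiniteDimensional ℂ E]
  {X : Type*} [TopologicalSpace X] [ChartedSpace E X] [IsManifold 𝓘(ℂ, E) ω X]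

lemma finrank_real_fun (d : ℕ) : finrank ℝ (Fin d → ℂ) = 2 * d := by
  rw [← finrank_mul_finrank ℝ ℂ (Fin d → ℂ), Complex.finrank_real_complex, finrank_fin_fun]

/-- an injective linear map has a continuous left inverse -/
lemma exists_left_inverse {d : ℕ} (A : (Fin d → ℂ) →L[ℂ] E) (hA : Function.Injective A) :
    ∃ p : E →L[ℂ] (Fin d → ℂ), p.comp A = ContinuousLinearMap.id ℂ _ := by
  obtain ⟨g, hg⟩ := (A : (Fin d → ℂ) →ₗ[ℂ] E).exists_leftInverse_of_injective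
    (LinearMap.ker_eq_bot.mpr hA)
  refine ⟨g.toContinuousLinearMap, ?_⟩
  ext x
  have := congrArg (fun f => f x) hg
  simp only [LinearMap.comp_apply, LinearMap.id_apply] at this
  exact congrFun this _

theorem dim_le {d e : ℕ} {T : Set X} (hC : Cov E e T) (hB : HasBall E d T) : d ≤ e := by
  obtain ⟨O, φ, hO, ⟨v₀, hv₀⟩, hφ, hinj, himm, hsub⟩ := hB
  obtain ⟨P, θ, hP, hcov⟩ := hC
  set κ := chartAt E (φ v₀) with hκ
  have hφv₀ : ContMDiffAt 𝓘(ℂ, Fin d → ℂ) 𝓘(ℂ, E) ω φ v₀ := hφ.contMDiffAt (hO.mem_nhds hv₀)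
  have hsrc : φ v₀ ∈ κ.source := mem_chart_source E (φ v₀)
  have hκsm : ContMDiffOn 𝓘(ℂ, E) 𝓘(ℂ, E) ω κ κ.source := contMDiffOn_chart
  have hcomp : ContDiffAt ℂ ω (κ ∘ φ) v₀ := by
    rw [← contMDiffAt_iff_contDiffAt]
    exact (hκsm.contMDiffAt (κ.open_source.mem_nhds hsrc)).comp v₀ hφv₀
  -- the derivative in the chart
  have hder : mfderiv 𝓘(ℂ, Fin d → ℂ) 𝓘(ℂ, E) φ v₀ = fderiv ℂ (κ ∘ φ) v₀ := by
    have h1 : MDifferentiableAt 𝓘(ℂ, Fin d → ℂ) 𝓘(ℂ, E) φ v₀ :=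
      hφv₀.mdifferentiableAt (by simp)
    rw [h1.mfderiv]
    simp only [writtenInExtChartAt, mfld_simps]
    rw [fderivWithin_univ]
  have hinjA : Function.Injective (fderiv ℂ (κ ∘ φ) v₀) := by
    rw [← hder]; exact himm v₀ hv₀
  obtain ⟨p, hp⟩ := exists_left_inverse _ hinjA
  -- the image contains an open set
  have hstrict : HasStrictFDerivAt (fun v => p ((κ ∘ φ) v)) (ContinuousLinearMap.id ℂ (Fin d → ℂ)) v₀ := by
    have h1 := hcomp.hasStrictFDerivAt (n := ω) (by simp)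
    have h2 := p.hasStrictFDerivAt.comp v₀ h1
    rw [hp] at h2
    exact h2
  have hmap : map (fun v => p ((κ ∘ φ) v)) (𝓝 v₀) = 𝓝 (p ((κ ∘ φ) v₀)) :=
    hstrict.map_nhds_eq_of_surj (by
      rw [LinearMap.range_eq_top]
      exact Function.surjective_id)
  set G : Set (Fin d → ℂ) := (fun x => p (κ x)) '' (T ∩ κ.source) with hG
  have hGn : G ∈ 𝓝 (p ((κ ∘ φ) v₀)) := by
    rw [← hmap, mem_map]
    have h01 : ∀ᶠ v in 𝓝 v₀, v ∈ O := hO.mem_nhds hv₀
    have h02 : ∀ᶠ v in 𝓝 v₀, φ v ∈ κ.source :=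
      hφv₀.continuousAt (κ.open_source.mem_nhds hsrc)
    filter_upwards [h01.and h02] with v hv
    exact ⟨φ v, ⟨hsub ⟨v, hv.1, rfl⟩, hv.2⟩, rfl⟩
  have hdimG : dimH G = finrank ℝ (Fin d → ℂ) := Real.dimH_of_mem_nhds hGn
  -- upper bound for the dimension
  have hdimle : dimH G ≤ finrank ℝ (Fin e → ℂ) := by
    have h1 : G ⊆ ⋃ i, (fun v => p (κ (θ i v))) '' (P i ∩ θ i ⁻¹' κ.source) := by
      rintro _ ⟨x, ⟨hxT, hxs⟩, rfl⟩
      have := hcov hxT
      rw [mem_iUnion] at this ⊢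
      obtain ⟨i, v, hv, rfl⟩ := this
      exact ⟨i, v, ⟨hv, hxs⟩, rfl⟩
    refine (dimH_mono h1).trans ?_
    rw [dimH_iUnion]
    apply iSup_le
    intro i
    have h2 : dimH ((fun v => p (κ (θ i v))) '' (P i ∩ θ i ⁻¹' κ.source)) ≤
        dimH (P i ∩ θ i ⁻¹' κ.source) := by
      apply dimH_image_le_of_locally_lipschitzOn
      intro v hv
      have h3 : ContMDiffAt 𝓘(ℂ, Fin e → ℂ) 𝓘(ℂ, E) ω (θ i) v :=
        (hP i).2.contMDiffAt ((hP i).1.mem_nhds hv.1)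
      have h4 : ContDiffAt ℂ ω (κ ∘ θ i) v := by
        rw [← contMDiffAt_iff_contDiffAt]
        exact (hκsm.contMDiffAt (κ.open_source.mem_nhds hv.2)).comp v h3
      have h5 : ContDiffAt ℂ 1 (fun v => p ((κ ∘ θ i) v)) v :=
        (p.contDiff.contDiffAt.comp v h4).of_le (by exact_mod_cast le_top)
      obtain ⟨C, t, ht, hC⟩ := h5.exists_lipschitzOnWith
      exact ⟨C, t, mem_nhdsWithin_of_mem_nhds ht, hC⟩
    refine h2.trans ?_
    rw [← Real.dimH_univ_eq_finrank]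
    exact dimH_mono (subset_univ _)
  rw [hdimG, finrank_real_fun, finrank_real_fun] at hdimle
  have : (2 * d : ℕ) ≤ 2 * e := by exact_mod_cast hdimle
  omega

end Pool.Agent.Hhelper87.Crit
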