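import Mathlib
import Pool.Agent.Hhelper87.Crit.Dim

/-!
Analytic subsets of complex manifolds: fibres of correspondences.
-/

namespace Pool.Agent.Hhelper87.Crit

open Module Filter Topology Set
open scoped Manifold ContDiff

set_option linter.unusedSectionVars false

/-- `A` is an analytic subset of the complex manifold `M`: near every point of `M` it is the common
zero set of finitely many holomorphic functions. -/
def IsAnalyticSubset {E : Type*} [NormedAddCommGroup E] [NormedSpace ℂ E] {H : Type*}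
    [TopologicalSpace H] (I : ModelWithCorners ℂ E H) {M : Type*} [TopologicalSpace M]
    [ChartedSpace H M] (A : Set M) : Prop :=
  ∀ z : M, ∃ U : Set M, IsOpen U ∧ z ∈ U ∧ ∃ (m : ℕ) (g : Fin m → M → ℂ),
    (∀ i, ContMDiffOn I 𝓘(ℂ, ℂ) ω (g i) U) ∧ ∀ w ∈ U, w ∈ A ↔ ∀ i, g i w = 0

variable {E : Type*} [NormedAddCommGroup E] [NormedSpace ℂ E] [FiniteDimensional ℂ E]
  {X : Type*} [TopologicalSpace X] [ChartedSpace E X] [IsManifold 𝓘(ℂ, E) ω X]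

lemma contMDiffOn_analytic {V : Type*} [NormedAddCommGroup V] [NormedSpace ℂ V]
    {f : V → ℂ} {s : Set V} (hs : IsOpen s) (hf : ContMDiffOn 𝓘(ℂ, V) 𝓘(ℂ, ℂ) ω f s) :
    AnalyticOnNhd ℂ f s := by
  rw [contMDiffOn_iff_contDiffOn] at hf
  intro x hx
  exact (hf.contDiffAt (hs.mem_nhds hx)).analyticAt

/-- the symmetric of a chart is holomorphic -/
lemma contMDiffOn_symm (x : X) :
    ContMDiffOn 𝓘(ℂ, E) 𝓘(ℂ, E) ω (chartAt E x).symm (chartAt E x).target :=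
  contMDiffOn_chart_symm

/-- If `W` is covered by countably many `e`-dimensional images then so is the set of the `x` such
that for some `y ∈ W` the point `x` is isolated in the fibre of `Γ` over `y`. -/
theorem cov_fibre [SecondCountableTopology X] [Nonempty X] {Γ : Set (X × X)}
    (hΓ : IsAnalyticSubset (𝓘(ℂ, E).prod 𝓘(ℂ, E)) Γ) {W : Set X} {e : ℕ} (hW : Cov E e W) :
    Cov E e {x : X | ∃ y ∈ W, (x, y) ∈ Γ ∧ ¬ AccPt x (𝓟 {x' | (x', y) ∈ Γ})} := by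
  obtain ⟨O, φ, hO, hcov⟩ := hW
  set T : ℕ → Set ((Fin e → ℂ) × X) := fun j => {p | p.1 ∈ O j ∧ (p.2, φ j p.1) ∈ Γ ∧
    ¬ AccPt p.2 (𝓟 {x' | (x', φ j p.1) ∈ Γ})} with hT
  have hsub : {x : X | ∃ y ∈ W, (x, y) ∈ Γ ∧ ¬ AccPt x (𝓟 {x' | (x', y) ∈ Γ})} ⊆
      ⋃ j, Prod.snd '' T j := by
    rintro x ⟨y, hy, hxy, hacc⟩
    have := hcov hy
    rw [mem_iUnion] at this ⊢
    obtain ⟨j, v, hv, rfl⟩ := this
    exact ⟨j, (v, x), ⟨hv, hxy, hacc⟩, rfl⟩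
  refine Cov.mono (Cov.iUnion fun j => ?_) hsub
  apply Cov.of_local
  rintro ⟨v₀, x₀⟩ ⟨hv₀, hx₀, -⟩
  simp only at hv₀ hx₀
  obtain ⟨U, hUo, hU, m, g, hg, hgU⟩ := hΓ (x₀, φ j v₀)
  set κ := chartAt E x₀ with hκ
  have hsrc : x₀ ∈ κ.source := mem_chart_source E x₀
  -- the parametrisation map
  set G : (Fin e → ℂ) × E → X × X := fun p => (κ.symm p.2, φ j p.1) with hG
  have hG1 : ContMDiffOn 𝓘(ℂ, (Fin e → ℂ) × E) 𝓘(ℂ, E) ω (fun p : (Fin e → ℂ) × E => κ.symm p.2)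
      (O j ×ˢ κ.target) :=
    (contMDiffOn_symm x₀).comp (contDiff_snd.contMDiff.contMDiffOn) (fun p hp => hp.2)
  have hG2 : ContMDiffOn 𝓘(ℂ, (Fin e → ℂ) × E) 𝓘(ℂ, E) ω (fun p : (Fin e → ℂ) × E => φ j p.1)
      (O j ×ˢ κ.target) :=
    (hO j).2.comp (contDiff_fst.contMDiff.contMDiffOn) (fun p hp => hp.1)
  have hGs : ContMDiffOn 𝓘(ℂ, (Fin e → ℂ) × E) (𝓘(ℂ, E).prod 𝓘(ℂ, E)) ω G (O j ×ˢ κ.target) :=
    hG1.prodMk hG2
  have hopen : IsOpen (O j ×ˢ κ.target) := (hO j).1.prod κ.open_target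
  set D : Set ((Fin e → ℂ) × E) := (O j ×ˢ κ.target) ∩ G ⁻¹' U with hD
  have hDo : IsOpen D := hGs.continuousOn.isOpen_inter_preimage hopen hUo
  set J : Set ((Fin e → ℂ) × E → ℂ) := range (fun i => g i ∘ G) with hJ
  have hJan : ∀ h ∈ J, AnalyticOnNhd ℂ h D := by
    rintro _ ⟨i, rfl⟩
    apply contMDiffOn_analytic hDo
    exact (hg i).comp (hGs.mono inter_subset_left) inter_subset_right
  have hu : AnalyticOnNhd ℂ (Prod.fst : (Fin e → ℂ) × E → (Fin e → ℂ)) D :=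
    fun x _ => analyticAt_fst
  have hiso := cov_iso hDo J hJan hu
  have hJΓ : ∀ p ∈ D, (∀ h ∈ J, h p = 0) ↔ G p ∈ Γ := by
    intro p hp
    rw [hgU (G p) hp.2]
    constructor
    · intro h i
      exact h _ ⟨i, rfl⟩
    · rintro h _ ⟨i, rfl⟩
      exact h i
  refine ⟨{p | p.1 ∈ O j ∧ p.2 ∈ κ.source ∧ (p.2, φ j p.1) ∈ U}, ?_, ?_⟩
  · have h1 : ∀ᶠ p : (Fin e → ℂ) × X in 𝓝 (v₀, x₀), p.1 ∈ O j :=
      continuousAt_fst ((hO j).1.mem_nhds hv₀)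
    have h2 : ∀ᶠ p : (Fin e → ℂ) × X in 𝓝 (v₀, x₀), p.2 ∈ κ.source :=
      continuousAt_snd (κ.open_source.mem_nhds hsrc)
    have h3 : ∀ᶠ p : (Fin e → ℂ) × X in 𝓝 (v₀, x₀), (p.2, φ j p.1) ∈ U := by
      have hc : ContinuousAt (fun p : (Fin e → ℂ) × X => (p.2, φ j p.1)) (v₀, x₀) := by
        apply ContinuousAt.prodMk continuousAt_snd
        have h4 : ContinuousAt (φ j) v₀ := ((hO j).2.contMDiffAt ((hO j).1.mem_nhds hv₀)).continuousAt
        exact ContinuousAt.comp (f := Prod.fst) (g := φ j) h4 continuousAt_fst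
      exact hc (hUo.mem_nhds hU)
    exact h1.and (h2.and h3)
  · have h1 := Cov.image (f := fun p : (Fin e → ℂ) × E => κ.symm p.2) (D := O j ×ˢ κ.target)
      hiso hopen hG1 (fun p hp => hp.1.1.1)
    refine h1.mono ?_
    rintro _ ⟨⟨v, x⟩, ⟨⟨hv, hx, hacc⟩, ⟨-, hxs, hxU⟩⟩, rfl⟩
    simp only at hv hx hacc hxs hxU ⊢
    have hκx : κ.symm (κ x) = x := κ.left_inv hxs
    have hGx : G (v, κ x) = (x, φ j v) := by simp [hG, hκx]
    have hmemD : (v, κ x) ∈ D := by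
      refine ⟨⟨hv, κ.map_source hxs⟩, ?_⟩
      change G (v, κ x) ∈ U
      rw [hGx]; exact hxU
    refine ⟨(v, κ x), ⟨⟨hmemD, ?_⟩, ?_⟩, hκx⟩
    · rw [hJΓ _ hmemD, hGx]; exact hx
    · -- isolation
      rw [accPt_iff_nhds] at hacc
      push Not at hacc
      obtain ⟨N, hN, hNiso⟩ := hacc
      refine ⟨{p | p.2 ∈ κ.target ∧ κ.symm p.2 ∈ N}, ?_, ?_⟩
      · have h2 : ∀ᶠ p : (Fin e → ℂ) × E in 𝓝 (v, κ x), p.2 ∈ κ.target :=
          continuousAt_snd (κ.open_target.mem_nhds (κ.map_source hxs))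
        have h3 : ∀ᶠ p : (Fin e → ℂ) × E in 𝓝 (v, κ x), κ.symm p.2 ∈ N := by
          have hc : ContinuousAt κ.symm (κ x) := κ.continuousAt_symm (κ.map_source hxs)
          have hc2 : ContinuousAt (fun p : (Fin e → ℂ) × E => κ.symm p.2) (v, κ x) :=
            ContinuousAt.comp (f := Prod.snd) (g := κ.symm) hc continuousAt_snd
          apply hc2
          simpa [hκx] using hN
        exact h2.and h3
      · rintro ⟨v', ξ⟩ ⟨hξ, hξN⟩ hpD hpJ hfst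
        simp only at hξ hξN hfst
        subst hfst
        have h4 : G (v', ξ) ∈ Γ := (hJΓ _ hpD).mp hpJ
        have h5 : κ.symm ξ = x := hNiso (κ.symm ξ) ⟨hξN, h4⟩
        have h6 : ξ = κ x := by rw [← h5, κ.right_inv hξ]
        rw [h6]

/-- pushing a ball by the inverse of a chart -/
lemma HasBall.symm_chart {x₀ : X} {d : ℕ} {T : Set E} (hT : HasBall E d T)
    (hsub : T ⊆ (chartAt E x₀).target) : HasBall E d ((chartAt E x₀).symm '' T) := by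
  obtain ⟨O, φ, hO, hne, hφ, hinj, himm, hT'⟩ := hT
  set κ := chartAt E x₀ with hκ
  have hmaps : MapsTo φ O κ.target := fun v hv => hsub (hT' ⟨v, hv, rfl⟩)
  refine ⟨O, κ.symm ∘ φ, hO, hne, (contMDiffOn_symm x₀).comp hφ hmaps, ?_, ?_, ?_⟩
  · intro v hv v' hv' h
    apply hinj hv hv'
    have h1 : κ (κ.symm (φ v)) = κ (κ.symm (φ v')) := congrArg κ h
    rwa [κ.right_inv (hmaps hv), κ.right_inv (hmaps hv')] at h1
  · intro v hv
    have hφv : MDifferentiableAt 𝓘(ℂ, Fin d → ℂ) 𝓘(ℂ, E) φ v :=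
      (hφ.contMDiffAt (hO.mem_nhds hv)).mdifferentiableAt (by simp)
    have hκs : MDifferentiableAt 𝓘(ℂ, E) 𝓘(ℂ, E) κ.symm (φ v) :=
      ((contMDiffOn_symm x₀).contMDiffAt (κ.open_target.mem_nhds (hmaps hv))).mdifferentiableAt
        (by simp)
    have hmem : κ.symm (φ v) ∈ κ.source := κ.map_target (hmaps hv)
    have hκsm : ContMDiffOn 𝓘(ℂ, E) 𝓘(ℂ, E) ω κ κ.source := contMDiffOn_chart
    have hκd : MDifferentiableAt 𝓘(ℂ, E) 𝓘(ℂ, E) κ (κ.symm (φ v)) :=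
      (hκsm.contMDiffAt (κ.open_source.mem_nhds hmem)).mdifferentiableAt (by simp)
    have hcomp : MDifferentiableAt 𝓘(ℂ, Fin d → ℂ) 𝓘(ℂ, E) (κ.symm ∘ φ) v :=
      MDifferentiableAt.comp v hκs hφv
    have h1 : mfderiv 𝓘(ℂ, Fin d → ℂ) 𝓘(ℂ, E) (κ ∘ (κ.symm ∘ φ)) v =
        (mfderiv 𝓘(ℂ, E) 𝓘(ℂ, E) κ (κ.symm (φ v))).comp
          (mfderiv 𝓘(ℂ, Fin d → ℂ) 𝓘(ℂ, E) (κ.symm ∘ φ) v) :=
      mfderiv_comp v hκd hcomp
    have h2 : mfderiv 𝓘(ℂ, Fin d → ℂ) 𝓘(ℂ, E) (κ ∘ (κ.symm ∘ φ)) v =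
        mfderiv 𝓘(ℂ, Fin d → ℂ) 𝓘(ℂ, E) φ v := by
      apply Filter.EventuallyEq.mfderiv_eq
      filter_upwards [hO.mem_nhds hv] with v' hv'
      exact κ.right_inv (hmaps hv')
    intro a b hab
    apply himm v hv
    rw [← h2, h1]
    exact congrArg (fun w => mfderiv 𝓘(ℂ, E) 𝓘(ℂ, E) κ (κ.symm (φ v)) w) hab
  · rintro _ ⟨v, hv, rfl⟩
    exact ⟨φ v, hT' ⟨v, hv, rfl⟩, rfl⟩

/-- the first projection of an analytic subset is covered by countably many `e`-dimensional images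
if it contains no immersed ball of dimension `> e` -/
theorem cov_fst [SecondCountableTopology X] [Nonempty X] {C : Set (X × X)}
    (hC : IsAnalyticSubset (𝓘(ℂ, E).prod 𝓘(ℂ, E)) C) {e : ℕ}
    (hball : ∀ d, HasBall E d (Prod.fst '' C) → d ≤ e) : Cov E e (Prod.fst '' C) := by
  apply Cov.of_local
  rintro ⟨x₀, y₀⟩ hz
  obtain ⟨U, hUo, hU, m, g, hg, hgU⟩ := hC (x₀, y₀)
  set κ := chartAt E x₀ with hκ
  set κ' := chartAt E y₀ with hκ'
  have hsrc : x₀ ∈ κ.source := mem_chart_source E x₀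
  have hsrc' : y₀ ∈ κ'.source := mem_chart_source E y₀
  set G : E × E → X × X := fun p => (κ.symm p.1, κ'.symm p.2) with hG
  have hG1 : ContMDiffOn 𝓘(ℂ, E × E) 𝓘(ℂ, E) ω (fun p : E × E => κ.symm p.1)
      (κ.target ×ˢ κ'.target) :=
    (contMDiffOn_symm x₀).comp (contDiff_fst.contMDiff.contMDiffOn) (fun p hp => hp.1)
  have hG2 : ContMDiffOn 𝓘(ℂ, E × E) 𝓘(ℂ, E) ω (fun p : E × E => κ'.symm p.2)
      (κ.target ×ˢ κ'.target) :=
    (contMDiffOn_symm y₀).comp (contDiff_snd.contMDiff.contMDiffOn) (fun p hp => hp.2)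
  have hGs : ContMDiffOn 𝓘(ℂ, E × E) (𝓘(ℂ, E).prod 𝓘(ℂ, E)) ω G (κ.target ×ˢ κ'.target) :=
    hG1.prodMk hG2
  have hopen : IsOpen (κ.target ×ˢ κ'.target) := κ.open_target.prod κ'.open_target
  set D : Set (E × E) := (κ.target ×ˢ κ'.target) ∩ G ⁻¹' U with hD
  have hDo : IsOpen D := hGs.continuousOn.isOpen_inter_preimage hopen hUo
  set J : Set (E × E → ℂ) := range (fun i => g i ∘ G) with hJ
  have hJan : ∀ h ∈ J, AnalyticOnNhd ℂ h D := by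
    rintro _ ⟨i, rfl⟩
    apply contMDiffOn_analytic hDo
    exact (hg i).comp (hGs.mono inter_subset_left) inter_subset_right
  have hu : AnalyticOnNhd ℂ (Prod.fst : E × E → E) D := fun x _ => analyticAt_fst
  have hJC : ∀ p ∈ D, (∀ h ∈ J, h p = 0) ↔ G p ∈ C := by
    intro p hp
    rw [hgU (G p) hp.2]
    constructor
    · intro h i
      exact h _ ⟨i, rfl⟩
    · rintro h _ ⟨i, rfl⟩
      exact h i
  set Z : Set (E × E) := {a | a ∈ D ∧ ∀ h ∈ J, h a = 0} with hZ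
  have hZsub : κ.symm '' (Prod.fst '' Z) ⊆ Prod.fst '' C := by
    rintro _ ⟨_, ⟨p, hp, rfl⟩, rfl⟩
    exact ⟨G p, (hJC p hp.1).mp hp.2, rfl⟩
  have hZt : Prod.fst '' Z ⊆ κ.target := by
    rintro _ ⟨p, hp, rfl⟩
    exact hp.1.1.1
  have hcovZ : Cov E e (Prod.fst '' Z) := by
    apply cov_image hDo J hJan hu
    intro d hd
    exact hball d ((hd.symm_chart hZt).mono hZsub)
  refine ⟨{p | p.1 ∈ κ.source ∧ p.2 ∈ κ'.source ∧ p ∈ U}, ?_, ?_⟩
  · have h1 : ∀ᶠ p : X × X in 𝓝 (x₀, y₀), p.1 ∈ κ.source :=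
      continuousAt_fst (κ.open_source.mem_nhds hsrc)
    have h2 : ∀ᶠ p : X × X in 𝓝 (x₀, y₀), p.2 ∈ κ'.source :=
      continuousAt_snd (κ'.open_source.mem_nhds hsrc')
    have h3 : ∀ᶠ p : X × X in 𝓝 (x₀, y₀), p ∈ U := hUo.mem_nhds hU
    exact h1.and (h2.and h3)
  · refine (Cov.image (f := κ.symm) hcovZ κ.open_target (contMDiffOn_symm x₀) hZt).mono ?_
    rintro _ ⟨⟨x, y⟩, ⟨hxy, hx, hy, hxyU⟩, rfl⟩
    simp only at hx hy
    have hGx : G (κ x, κ' y) = (x, y) := by simp [hG, κ.left_inv hx, κ'.left_inv hy]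
    have hmemD : (κ x, κ' y) ∈ D := by
      refine ⟨⟨κ.map_source hx, κ'.map_source hy⟩, ?_⟩
      change G (κ x, κ' y) ∈ U
      rw [hGx]; exact hxyU
    refine ⟨κ x, ⟨(κ x, κ' y), ⟨hmemD, ?_⟩, rfl⟩, κ.left_inv hx⟩
    rw [hJC _ hmemD, hGx]
    exact hxy

end Pool.Agent.Hhelper87.Crit
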