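import Mathlib
import Pool.Agent.Hhelper87.Crit.Manifold

/-!
Critical sets of iterates of dominant meromorphic self-maps.
-/

namespace Pool.Agent.Hhelper87.Crit

open Module Filter Topology Set
open scoped Manifold ContDiff

set_option linter.unusedSectionVars false

/-! ### definitions -/

/-- the points of `Γ ⊆ X × X` at which the fibre of the second projection `Γ → X` has positive
dimension, i.e. is not isolated. -/
def posLocus {X : Type*} [TopologicalSpace X] (Γ : Set (X × X)) : Set (X × X) :=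
  {z | z ∈ Γ ∧ AccPt z.1 (𝓟 {x | (x, z.2) ∈ Γ})}

/-- The critical set of `Γ`: the analytic subset of `Γ` formed by the points at which the fibre of
the second projection has positive dimension (it is analytic by the theorem of Cartan and Remmert).
It is the smallest analytic subset `C` of `Γ` such that every fibre of the second projection
restricted to `Γ ∖ C` has dimension `0`: see `IsCriticalSet.isLeast` below. -/
def IsCriticalSet {E : Type*} [NormedAddCommGroup E] [NormedSpace ℂ E]
    {X : Type*} [TopologicalSpace X] [ChartedSpace E X] (Γ C : Set (X × X)) : Prop :=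
  IsAnalyticSubset (𝓘(ℂ, E).prod 𝓘(ℂ, E)) C ∧ C = posLocus Γ

/-- `codim A ≥ p` in a complex manifold `X` modelled on `E`: if `A` contains an injectively immersed
nonempty open subset of `ℂ^d` then `d + p ≤ dim X`.  (For an analytic subset `A` this says that all
the irreducible components of `A` have dimension at most `dim X - p`; the empty set has
codimension `≥ p` for every `p`.) -/
def CodimGE (E : Type*) [NormedAddCommGroup E] [NormedSpace ℂ E]
    {X : Type*} [TopologicalSpace X] [ChartedSpace E X] (A : Set X) (p : ℕ) : Prop :=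
  ∀ d, HasBall E d A → d + p ≤ finrank ℂ E

/-- A dominant meromorphic self-map `f : X ⇢ X`: a holomorphic map on a dense open subset of `X`
such that the closure of its graph is an analytic subset of `X × X`, and such that the images of the
nonempty open sets have nonempty interior (`f` has generic rank `dim X`). -/
structure DomMeroMap (E : Type*) [NormedAddCommGroup E] [NormedSpace ℂ E]
    (X : Type*) [TopologicalSpace X] [ChartedSpace E X] where
  /-- a dense open set on which `f` is holomorphic -/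
  dom : Set X
  /-- the map -/
  toFun : X → X
  isOpen_dom : IsOpen dom
  dense_dom : Dense dom
  holomorphic : ContMDiffOn 𝓘(ℂ, E) 𝓘(ℂ, E) ω toFun dom
  analytic : IsAnalyticSubset (𝓘(ℂ, E).prod 𝓘(ℂ, E)) (closure {p : X × X | p.1 ∈ dom ∧ p.2 = toFun p.1})
  dominant : ∀ V : Set X, V ⊆ dom → IsOpen V → V.Nonempty → (interior (toFun '' V)).Nonempty

namespace DomMeroMap

variable {E : Type*} [NormedAddCommGroup E] [NormedSpace ℂ E]
  {X : Type*} [TopologicalSpace X] [ChartedSpace E X]

/-- the graph of `f` -/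
def graph (f : DomMeroMap E X) : Set (X × X) := closure {p : X × X | p.1 ∈ f.dom ∧ p.2 = f.toFun p.1}

/-- the dense open set on which the `n`-th iterate of `f` is defined (all the points
`x, f x, …, f^{n-1} x` are in the domain of `f`) -/
def iterDom (f : DomMeroMap E X) (n : ℕ) : Set X := {x | ∀ i < n, f.toFun^[i] x ∈ f.dom}

/-- the graph of the `n`-th iterate of `f` -/
def iterGraph (f : DomMeroMap E X) (n : ℕ) : Set (X × X) :=
  closure {p : X × X | p.1 ∈ f.iterDom n ∧ p.2 = f.toFun^[n] p.1}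

lemma iterDom_succ (f : DomMeroMap E X) (n : ℕ) :
    f.iterDom (n + 1) = f.dom ∩ f.toFun ⁻¹' (f.iterDom n) := by
  ext x
  constructor
  · intro h
    refine ⟨by simpa using h 0 (Nat.succ_pos n), fun i hi => ?_⟩
    have := h (i + 1) (by omega)
    rwa [Function.iterate_succ_apply] at this
  · rintro ⟨h1, h2⟩ i hi
    rcases i with _ | i
    · simpa using h1
    · rw [Function.iterate_succ_apply]
      exact h2 i (by omega)

/-- the domains of the iterates are open -/
theorem isOpen_iterDom (f : DomMeroMap E X) (n : ℕ) : IsOpen (f.iterDom n) := by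
  induction n with
  | zero =>
    have : f.iterDom 0 = univ := by ext x; simp [iterDom]
    rw [this]; exact isOpen_univ
  | succ n ih =>
    rw [iterDom_succ]
    exact f.holomorphic.continuousOn.isOpen_inter_preimage f.isOpen_dom ih

/-- the domains of the iterates are dense -/
theorem dense_iterDom (f : DomMeroMap E X) (n : ℕ) : Dense (f.iterDom n) := by
  induction n with
  | zero =>
    have : f.iterDom 0 = univ := by ext x; simp [iterDom]
    rw [this]; exact dense_univ
  | succ n ih =>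
    rw [iterDom_succ, dense_iff_inter_open]
    intro V hV hne
    have h1 : (V ∩ f.dom).Nonempty := f.dense_dom.inter_open_nonempty V hV hne
    obtain ⟨y, hy, hyn⟩ := ih.inter_open_nonempty _ isOpen_interior
      (f.dominant (V ∩ f.dom) inter_subset_right (hV.inter f.isOpen_dom) h1)
    obtain ⟨x, hx, rfl⟩ := interior_subset hy
    exact ⟨x, hx.1, hx.2, hyn⟩

/-- the iterates are holomorphic on their domains -/
theorem holomorphic_iterate (f : DomMeroMap E X) (n : ℕ) :
    ContMDiffOn 𝓘(ℂ, E) 𝓘(ℂ, E) ω f.toFun^[n] (f.iterDom n) := by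
  induction n with
  | zero => exact contMDiffOn_id
  | succ n ih =>
    rw [iterDom_succ, Function.iterate_succ]
    exact ih.comp (f.holomorphic.mono inter_subset_left) inter_subset_right

lemma iterGraph_one (f : DomMeroMap E X) : f.iterGraph 1 = f.graph := by
  unfold iterGraph graph
  congr 1
  ext p
  simp [iterDom]

end DomMeroMap

/-! ### topology -/

lemma posLocus_comp {X : Type*} [TopologicalSpace X] [CompactSpace X]
    {Γ₁ Γ₂ Γ : Set (X × X)} (h₁ : IsClosed Γ₁) (h₂ : IsClosed Γ₂)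
    (hsub : ∀ p ∈ Γ, ∃ y, (p.1, y) ∈ Γ₁ ∧ (y, p.2) ∈ Γ₂) {x z : X} (hxz : (x, z) ∈ posLocus Γ) :
    x ∈ Prod.fst '' posLocus Γ₁ ∨ ∃ y ∈ Prod.fst '' posLocus Γ₂, (x, y) ∈ Γ₁ := by
  classical
  obtain ⟨-, hacc⟩ := hxz
  simp only at hacc
  have hex : ∀ x' : X, ∃ y : X, (x', z) ∈ Γ → (x', y) ∈ Γ₁ ∧ (y, z) ∈ Γ₂ := by
    intro x'
    by_cases h : (x', z) ∈ Γ
    · obtain ⟨y, hy⟩ := hsub _ h
      exact ⟨y, fun _ => hy⟩
    · exact ⟨x', fun h' => (h h').elim⟩
  choose Y hY using hex
  have hne : (𝓝[≠] x ⊓ 𝓟 {x' | (x', z) ∈ Γ}).NeBot := hacc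
  set U : Ultrafilter X := Ultrafilter.of (𝓝[≠] x ⊓ 𝓟 {x' | (x', z) ∈ Γ}) with hU
  have hUle : (U : Filter X) ≤ 𝓝[≠] x ⊓ 𝓟 {x' | (x', z) ∈ Γ} := Ultrafilter.of_le _
  have hUx : (U : Filter X) ≤ 𝓝 x := hUle.trans (inf_le_left.trans nhdsWithin_le_nhds)
  have hUne : ∀ᶠ x' in (U : Filter X), x' ≠ x :=
    (hUle.trans inf_le_left) self_mem_nhdsWithin
  have hUΓ : ∀ᶠ x' in (U : Filter X), (x', z) ∈ Γ :=
    (hUle.trans inf_le_right) (mem_principal_self _)
  obtain ⟨y, -, hy⟩ := isCompact_univ.ultrafilter_le_nhds (U.map Y) (by simp)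
  have hyt : Tendsto Y (U : Filter X) (𝓝 y) := hy
  have hxt : Tendsto (fun x' => x') (U : Filter X) (𝓝 x) := hUx
  have hxy : (x, y) ∈ Γ₁ := by
    have h1 : Tendsto (fun x' => (x', Y x')) (U : Filter X) (𝓝 (x, y)) := hxt.prodMk_nhds hyt
    exact h₁.mem_of_tendsto h1 (hUΓ.mono fun x' hx' => (hY x' hx').1)
  have hyz : (y, z) ∈ Γ₂ := by
    have h1 : Tendsto (fun x' => (Y x', z)) (U : Filter X) (𝓝 (y, z)) :=
      hyt.prodMk_nhds tendsto_const_nhds
    exact h₂.mem_of_tendsto h1 (hUΓ.mono fun x' hx' => (hY x' hx').2)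
  rcases U.em (fun x' => Y x' = y) with hcase | hcase
  · left
    refine ⟨(x, y), ⟨hxy, ?_⟩, rfl⟩
    change (𝓝[≠] x ⊓ 𝓟 {x' | (x', y) ∈ Γ₁}).NeBot
    have hle : (U : Filter X) ≤ 𝓝[≠] x ⊓ 𝓟 {x' | (x', y) ∈ Γ₁} := by
      refine le_inf (hUle.trans inf_le_left) ?_
      rw [le_principal_iff]
      filter_upwards [hcase, hUΓ] with x' h1 h2
      have := (hY x' h2).1
      rw [h1] at this
      exact this
    exact U.neBot.mono hle
  · right
    refine ⟨y, ⟨(y, z), ⟨hyz, ?_⟩, rfl⟩, hxy⟩
    change (𝓝[≠] y ⊓ 𝓟 {y' | (y', z) ∈ Γ₂}).NeBot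
    have hle : (U.map Y : Filter X) ≤ 𝓝[≠] y ⊓ 𝓟 {y' | (y', z) ∈ Γ₂} := by
      refine le_inf ?_ ?_
      · rw [nhdsWithin]
        refine le_inf hy ?_
        rw [le_principal_iff, Ultrafilter.coe_map, mem_map]
        exact hcase
      · rw [le_principal_iff, Ultrafilter.coe_map, mem_map]
        filter_upwards [hUΓ] with x' h2
        exact (hY x' h2).2
    exact (U.map Y).neBot.mono hle

lemma iterGraph_succ_sub {E : Type*} [NormedAddCommGroup E] [NormedSpace ℂ E]
    {X : Type*} [TopologicalSpace X] [CompactSpace X] [T2Space X] [ChartedSpace E X]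
    (f : DomMeroMap E X) (n : ℕ) :
    ∀ p ∈ f.iterGraph (n + 1), ∃ y, (p.1, y) ∈ f.graph ∧ (y, p.2) ∈ f.iterGraph n := by
  set K : Set (X × X × X) := {t | (t.1, t.2.1) ∈ f.graph ∧ (t.2.1, t.2.2) ∈ f.iterGraph n} with hK
  have hKc : IsClosed K := by
    have h1 : IsClosed {t : X × X × X | (t.1, t.2.1) ∈ f.graph} :=
      isClosed_closure.preimage (by fun_prop)
    have h2 : IsClosed {t : X × X × X | (t.2.1, t.2.2) ∈ f.iterGraph n} :=
      isClosed_closure.preimage (by fun_prop)
    exact h1.inter h2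
  have hR : IsClosed ((fun t : X × X × X => (t.1, t.2.2)) '' K) :=
    (hKc.isCompact.image (by fun_prop)).isClosed
  have hsub : {p : X × X | p.1 ∈ f.iterDom (n + 1) ∧ p.2 = f.toFun^[n + 1] p.1} ⊆
      (fun t : X × X × X => (t.1, t.2.2)) '' K := by
    rintro ⟨x, z⟩ ⟨hx, hz⟩
    simp only at hx hz
    refine ⟨(x, f.toFun x, z), ⟨?_, ?_⟩, rfl⟩
    · exact subset_closure ⟨by simpa using hx 0 (Nat.succ_pos n), rfl⟩
    · apply subset_closure
      refine ⟨?_, ?_⟩
      · intro i hi
        have := hx (i + 1) (by omega)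
        rwa [Function.iterate_succ_apply] at this
      · rw [hz, Function.iterate_succ_apply]
  have hcl := closure_minimal hsub hR
  intro p hp
  obtain ⟨t, ht, hpt⟩ := hcl hp
  refine ⟨t.2.1, ?_, ?_⟩
  · rw [← hpt]; exact ht.1
  · rw [← hpt]; exact ht.2

/-! ### analytic subsets are closed -/

lemma IsAnalyticSubset.isClosed {E : Type*} [NormedAddCommGroup E] [NormedSpace ℂ E] {H : Type*}
    [TopologicalSpace H] {I : ModelWithCorners ℂ E H} {M : Type*} [TopologicalSpace M]
    [ChartedSpace H M] {A : Set M} (hA : IsAnalyticSubset I A) : IsClosed A := by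
  rw [← isOpen_compl_iff, isOpen_iff_mem_nhds]
  intro z hz
  obtain ⟨U, hUo, hzU, m, g, hg, hgU⟩ := hA z
  have h1 : ∃ i, g i z ≠ 0 := by
    by_contra hcon
    push Not at hcon
    exact hz ((hgU z hzU).mpr hcon)
  obtain ⟨i, hi⟩ := h1
  have hc : ContinuousAt (g i) z := ((hg i).continuousOn).continuousAt (hUo.mem_nhds hzU)
  filter_upwards [hUo.mem_nhds hzU, hc.eventually_ne hi] with w hwU hw hwA
  exact hw ((hgU w hwU).mp hwA i)

/-- The critical set is the smallest analytic subset `C` of `Γ` such that all the fibres of the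
second projection restricted to `Γ ∖ C` have dimension `0` (are discrete). -/
theorem IsCriticalSet.isLeast {E : Type*} [NormedAddCommGroup E] [NormedSpace ℂ E]
    {X : Type*} [TopologicalSpace X] [ChartedSpace E X] {Γ C : Set (X × X)}
    (hC : IsCriticalSet (E := E) Γ C) :
    IsLeast {C' : Set (X × X) | IsAnalyticSubset (𝓘(ℂ, E).prod 𝓘(ℂ, E)) C' ∧ C' ⊆ Γ ∧
      ∀ z ∈ Γ \ C', ¬ AccPt z.1 (𝓟 {x | (x, z.2) ∈ Γ \ C'})} C := by
  obtain ⟨h1, h2⟩ := hC
  subst h2
  refine ⟨⟨h1, fun z hz => hz.1, ?_⟩, ?_⟩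
  · rintro z ⟨hz, hzn⟩ hacc
    exact hzn ⟨hz, hacc.mono (principal_mono.mpr fun x hx => hx.1)⟩
  · rintro C' ⟨hC', hsub, hdisc⟩ z hz
    by_contra hzC'
    apply hdisc z ⟨hz.1, hzC'⟩
    have hopen : IsOpen C'ᶜ := hC'.isClosed.isOpen_compl
    have h3 : ∀ᶠ x in 𝓝 z.1, (x, z.2) ∈ C'ᶜ := by
      have hc : ContinuousAt (fun x => (x, z.2)) z.1 := by fun_prop
      exact hc (hopen.mem_nhds hzC')
    have h4 := hz.2
    rw [accPt_iff_frequently] at h4 ⊢
    refine (h4.and_eventually h3).mono ?_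
    rintro x ⟨⟨hx1, hx2⟩, hx3⟩
    exact ⟨hx1, hx2, hx3⟩

/-! ### the main theorem -/

variable {E : Type*} [NormedAddCommGroup E] [NormedSpace ℂ E] [FiniteDimensional ℂ E]
  {X : Type*} [TopologicalSpace X] [CompactSpace X] [T2Space X] [ChartedSpace E X]
  [IsManifold 𝓘(ℂ, E) ω X]

lemma hasBall_zero {A : Set X} {x : X} (hx : x ∈ A) : HasBall E 0 A := by
  refine ⟨univ, fun _ => x, isOpen_univ, univ_nonempty, contMDiffOn_const, ?_, ?_, ?_⟩
  · intro a _ b _ _
    exact Subsingleton.elim a b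
  · intro v _ a b _
    exact Subsingleton.elim (α := Fin 0 → ℂ) a b
  · rintro _ ⟨_, _, rfl⟩
    exact hx

lemma fst_posLocus_succ (f : DomMeroMap E X) (n : ℕ) :
    Prod.fst '' posLocus (f.iterGraph (n + 1)) ⊆ Prod.fst '' posLocus f.graph ∪
      {x : X | ∃ y ∈ Prod.fst '' posLocus (f.iterGraph n), (x, y) ∈ f.graph ∧
        ¬ AccPt x (𝓟 {x' | (x', y) ∈ f.graph})} := by
  rintro _ ⟨⟨x, z⟩, hxz, rfl⟩
  by_cases hx : x ∈ Prod.fst '' posLocus f.graph
  · exact Or.inl hx
  · right
    rcases posLocus_comp isClosed_closure isClosed_closure (iterGraph_succ_sub f n) hxz with h | h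
    · exact (hx h).elim
    · obtain ⟨y, hy, hxy⟩ := h
      refine ⟨y, hy, hxy, fun hacc => ?_⟩
      exact hx ⟨(x, y), ⟨hxy, hacc⟩, rfl⟩

theorem codim_iterate (f : DomMeroMap E X) {C : Set (X × X)}
    (hCan : IsAnalyticSubset (𝓘(ℂ, E).prod 𝓘(ℂ, E)) C) (hCpos : posLocus f.graph ⊆ C)
    {p : ℕ} (hp : CodimGE E (Prod.fst '' C) p) (n : ℕ) (hn : 1 ≤ n) :
    CodimGE E (Prod.fst '' posLocus (f.iterGraph n)) p := by
  intro d hd
  have hne : Nonempty X := by
    obtain ⟨O, φ, -, ⟨v, hv⟩, -⟩ := hd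
    exact ⟨φ v⟩
  have : SecondCountableTopology E := secondCountable_of_proper
  have : SecondCountableTopology X := ChartedSpace.secondCountable_of_sigmaCompact E X
  by_cases hpk : p ≤ finrank ℂ E
  · set e := finrank ℂ E - p with he
    have hCcov : Cov E e (Prod.fst '' C) := by
      apply cov_fst hCan
      intro d' hd'
      have := hp d' hd'
      omega
    have hind : ∀ m, Cov E e (Prod.fst '' posLocus (f.iterGraph (m + 1))) := by
      intro m
      induction m with
      | zero =>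
        rw [zero_add, f.iterGraph_one]
        exact hCcov.mono (image_mono hCpos)
      | succ m ih =>
        refine Cov.mono ?_ (fst_posLocus_succ f (m + 1))
        exact (hCcov.mono (image_mono hCpos)).union (cov_fibre f.analytic ih)
    obtain ⟨m, rfl⟩ : ∃ m, n = m + 1 := ⟨n - 1, by omega⟩
    have := dim_le (hind m) hd
    omega
  · exfalso
    have hCempty : ∀ x, x ∉ Prod.fst '' C := by
      intro x hx
      have := hp 0 (hasBall_zero hx)
      omega
    have hind : ∀ m, ∀ x, x ∉ Prod.fst '' posLocus (f.iterGraph (m + 1)) := by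
      intro m
      induction m with
      | zero =>
        intro x hx
        rw [zero_add, f.iterGraph_one] at hx
        exact hCempty x (image_mono hCpos hx)
      | succ m ih =>
        intro x hx
        rcases fst_posLocus_succ f (m + 1) hx with h | ⟨y, hy, -⟩
        · exact hCempty x (image_mono hCpos h)
        · exact ih y hy
    obtain ⟨m, rfl⟩ : ∃ m, n = m + 1 := ⟨n - 1, by omega⟩
    obtain ⟨O, φ, -, ⟨v, hv⟩, -, -, -, hsub⟩ := hd
    exact hind m (φ v) (hsub ⟨v, hv, rfl⟩)

end Pool.Agent.Hhelper87.Crit
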